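import Pool.Agent.SGE.Defs

/-!
# Squad SGL: crossing of two segments, algebra (proved)
-/

noncomputable section

namespace Pool.Agent.SGL

open Pool.Agent.SGE

theorem o_rot (p q r : ℝ × ℝ) : o p q r = o q r p := by unfold o; ring
theorem o_swap (p q r : ℝ × ℝ) : o p q r = -o q p r := by unfold o; ring
theorem o_swap' (p q r : ℝ × ℝ) : o p q r = -o p r q := by unfold o; ring

theorem xs_swap {p q r s : ℝ × ℝ} (h : Xs p q r s) : Xs r s p q := ⟨h.2, h.1⟩

theorem xs_rev {p q r s : ℝ × ℝ} (h : Xs p q r s) : Xs q p r s := by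
  obtain ⟨h1, h2⟩ := h
  refine ⟨?_, ?_⟩
  · rw [o_swap q p r, o_swap q p s]; nlinarith
  · rw [mul_comm]; exact h2

/-- Two segments on different closed sides of a line do not cross, if one end is not on the line:
`ℓ(x) = u x.1 + v x.2 + w`. -/
theorem sep {p q r s : ℝ × ℝ} (u v w : ℝ) (hp : u * p.1 + v * p.2 + w < 0)
    (hq : u * q.1 + v * q.2 + w ≤ 0) (hr : 0 ≤ u * r.1 + v * r.2 + w)
    (hs : 0 ≤ u * s.1 + v * s.2 + w) : ¬ Xs p q r s := by
  rintro ⟨h1, h2⟩
  have e : o r s q * (u * p.1 + v * p.2 + w) - o r s p * (u * q.1 + v * q.2 + w)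
      + o p q s * (u * r.1 + v * r.2 + w) - o p q r * (u * s.1 + v * s.2 + w) = 0 := by
    unfold o; ring
  have e2 : o r s q - o r s p + o p q s - o p q r = 0 := by unfold o; ring
  rcases mul_neg_iff.1 h2 with ⟨ha, hb⟩ | ⟨ha, hb⟩
  · rcases mul_neg_iff.1 h1 with ⟨hc, hd⟩ | ⟨hc, hd⟩
    · linarith
    · have t1 := mul_pos_of_neg_of_neg hb hp
      have t2 := mul_nonneg ha.le (neg_nonneg.2 hq)
      have t3 := mul_nonneg hd.le hr
      have t4 := mul_nonneg (neg_nonneg.2 hc.le) hs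
      linarith
  · rcases mul_neg_iff.1 h1 with ⟨hc, hd⟩ | ⟨hc, hd⟩
    · have t1 := mul_neg_of_pos_of_neg hb hp
      have t2 := mul_nonneg (neg_nonneg.2 ha.le) (neg_nonneg.2 hq)
      have t3 := mul_nonneg (neg_nonneg.2 hd.le) hr
      have t4 := mul_nonneg hc.le hs
      linarith
    · linarith

/-- the same with the line through `z` and `w` -/
theorem sepo {p q r s : ℝ × ℝ} (z w : ℝ × ℝ) (hp : o z w p < 0) (hq : o z w q ≤ 0)
    (hr : 0 ≤ o z w r) (hs : 0 ≤ o z w s) : ¬ Xs p q r s := by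
  have e : ∀ x : ℝ × ℝ, o z w x = -(w.2 - z.2) * x.1 + (w.1 - z.1) * x.2 +
      ((w.2 - z.2) * z.1 - (w.1 - z.1) * z.2) := fun x => by unfold o; ring
  rw [e] at hp hq hr hs
  exact sep _ _ _ hp hq hr hs

/-- both ends of the second segment are on the same side of the first one -/
theorem same_neg {p q r s : ℝ × ℝ} (hr : o p q r < 0) (hs : o p q s < 0) : ¬ Xs p q r s :=
  fun h => absurd h.1 (not_lt.2 (mul_pos_of_neg_of_neg hr hs).le)

theorem same_pos {p q r s : ℝ × ℝ} (hr : 0 < o p q r) (hs : 0 < o p q s) : ¬ Xs p q r s :=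
  fun h => absurd h.1 (not_lt.2 (mul_pos hr hs).le)

/-- a common end -/
theorem com {p q r s : ℝ × ℝ} (h : p = r ∨ p = s ∨ q = r ∨ q = s) : ¬ Xs p q r s := by
  rintro ⟨h1, h2⟩
  have e : ∀ x y : ℝ × ℝ, o x y x = 0 := fun x y => by unfold o; ring
  have e' : ∀ x y : ℝ × ℝ, o x y y = 0 := fun x y => by unfold o; ring
  rcases h with h | h | h | h
  · subst h; rw [e] at h1; simp at h1
  · subst h; rw [e] at h1; simp at h1
  · subst h; rw [e'] at h1; simp at h1
  · subst h; rw [e'] at h1; simp at h1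

/-- separated by a vertical line -/
theorem sepx {p q r s : ℝ × ℝ} (h1 : p.1 < r.1) (h2 : p.1 < s.1) (h3 : q.1 < r.1)
    (h4 : q.1 < s.1) : ¬ Xs p q r s := by
  have hr : min r.1 s.1 ≤ r.1 := min_le_left _ _
  have hs : min r.1 s.1 ≤ s.1 := min_le_right _ _
  have hp : p.1 < min r.1 s.1 := lt_min h1 h2
  have hq : q.1 < min r.1 s.1 := lt_min h3 h4
  exact sep 1 0 (-min r.1 s.1) (by linarith) (by linarith) (by linarith) (by linarith)

end Pool.Agent.SGL
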