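import Pool.Agent.SGD.Stmts

/-!
# Squad SGL (MP_41797f_co): 4-connected planar graphs and leveled graphs with two poles, definitions

THEOREM B.  `G₁` a subgraph of a maximal planar graph `T` on `n` vertices such that all separating
triangles of `T` contain one vertex `a` (for example `T` 4-connected), `G₂` a graph on `n` vertices with a
vertex `t` such that `G₂ - t` is weakly leveled planar and `t` is joined only to last vertices of levels;
the first vertex of the lowest level may be joined to the first vertices of all levels.  Then `G₁` and `G₂`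
have straight-line crossing-free drawings on one set of `n` points.

Idea.  The sweep of squad SGD (`Stt`: cluster `K` at the corner `c`, both sides contain `a`) gives an
order of the vertices `≠ a` of `T`: `k c = 0`, the inner vertices have `k = 1, ..., N`, `k b = N + 1`.  A
monotone function `σ` cuts it into slices.  The points: `v = (ρ v, B ^ σ (k v) + M ^ k v)`, `a = (W, 0)`,
`M` large, `B` much larger, `W` much larger; `ρ` is a suitable order of the columns (`Lay`).
-/

noncomputable section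

namespace Pool.Agent.SGL

open Pool.Agent.SGE Pool.Agent.SGP Pool.Agent.SGY Pool.Agent.SGD

/-! ## The layout -/

/-- The layout of the vertices `≠ a` of a triangulated triangle: `k` is the index of the sweep, `ρ` the
column, `σ (k x)` the slice of `x`.  `fa`: the face `x y z` has its last vertex (in the sweep) at `z`,
`x` is left of `y`, and if exactly one of `x`, `y` is in the slice of `z` then `z` is on the correct side of
it.  `fb`: the faces at `a`. -/
structure Lay {V : Type} (a b c : V) (E : V → V → Prop) (F : V → V → V → Prop) (N : ℕ)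
    (σ : ℕ → ℕ) (k ρ : V → ℕ) : Prop where
  kc : k c = 0
  kb : k b = N + 1
  kl : ∀ x, Rel E x → x ≠ a → k x ≤ N + 1
  ki : ∀ x y, Rel E x → Rel E y → x ≠ a → y ≠ a → k x = k y → x = y
  rl : ∀ x, Rel E x → x ≠ a → ρ x ≤ N + 1
  ri : ∀ x y, Rel E x → Rel E y → x ≠ a → y ≠ a → ρ x = ρ y → x = y
  rc : ∀ x, Rel E x → x ≠ a → x ≠ c → ρ c < ρ x
  rb : ∀ x, Rel E x → x ≠ a → x ≠ b → x ≠ c → ρ b < ρ x
  fa : ∀ x y z, F x y z → x ≠ a → y ≠ a → z ≠ a → k x < k z → k y < k z →
    ρ x < ρ y ∧ (σ (k y) < σ (k x) → σ (k x) = σ (k z) → ρ x < ρ z) ∧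
      (σ (k x) < σ (k y) → σ (k y) = σ (k z) → ρ z < ρ y)
  fb : ∀ x z, F x a z → k x < k z

/-! ## The points -/

/-- `M ^ k ≤ hh N` for `k ≤ N + 1`, `M = N + 3`. -/
def hh (N : ℕ) : ℝ := ((N : ℝ) + 3) ^ (N + 1)

/-- the base of the slices -/
def bb (N : ℕ) : ℝ := ((N : ℝ) + 3) * (hh N + 2)

/-- the column of the point `a` -/
def ww (N : ℕ) (σ : ℕ → ℕ) : ℝ := ((N : ℝ) + 2) * (bb N ^ σ (N + 1) + hh N + 1)

open Classical in
/-- The points. -/
def co {V : Type} (a : V) (N : ℕ) (σ : ℕ → ℕ) (k ρ : V → ℕ) (v : V) : ℝ × ℝ :=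
  if v = a then (ww N σ, 0) else ((ρ v : ℝ), bb N ^ σ (k v) + ((N : ℝ) + 3) ^ k v)

/-- What the second graph needs: `s` is the slice, `ρ` the column; `dn`: the points of the lower slices
are below the lines through two points of a slice, `up`: the points of the higher slices are above;
`ra`: order around `a`; `rc`: order around `c`. -/
structure GdL {V : Type} (a c : V) (R : Set V) (s ρ : V → ℕ) (f : V → ℝ × ℝ) : Prop where
  dn : ∀ p ∈ R, ∀ q ∈ R, ∀ r ∈ R, s p = s q → ρ p < ρ q → s r < s p → 0 < o (f q) (f p) (f r)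
  up : ∀ p ∈ R, ∀ q ∈ R, ∀ r ∈ R, s p = s q → ρ p < ρ q → s p < s r → 0 < o (f p) (f q) (f r)
  ra : ∀ p ∈ R, ∀ q ∈ R, s p < s q → 0 < o (f a) (f q) (f p)
  rc : ∀ p ∈ R, ∀ q ∈ R, p ≠ c → s p < s q → 0 < o (f c) (f p) (f q)
  xx : ∀ p ∈ R, ∀ q ∈ R, ρ p < ρ q → (f p).1 < (f q).1
  xa : ∀ p ∈ R, (f p).1 < (f a).1

/-- The edges of the second graph: `hh` inside a slice, `uu` from a slice to the next one (`S`), `cc`
from `c` to the first point of a slice, `aa` from the last point of a slice to `a`. -/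
inductive LE {V : Type} (a c : V) (R : Set V) (s ρ : V → ℕ) (S : V → V → Prop) : V → V → Prop
  | hh {p q : V} (hp : p ∈ R) (hq : q ∈ R) (hs : s p = s q) (hr : ρ p < ρ q)
      (hn : ∀ r ∈ R, s r = s p → ¬ (ρ p < ρ r ∧ ρ r < ρ q)) : LE a c R s ρ S p q
  | uu {p q : V} (hp : p ∈ R) (hq : q ∈ R) (hs : s q = s p + 1) (hS : S p q) : LE a c R s ρ S p q
  | cc {q : V} (hc : c ∈ R) (hq : q ∈ R) (hs : s c < s q)
      (hn : ∀ r ∈ R, s r = s q → ρ q ≤ ρ r) : LE a c R s ρ S c q
  | aa {p : V} (hp : p ∈ R) (hn : ∀ r ∈ R, s r = s p → ρ r ≤ ρ p) : LE a c R s ρ S p a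

/-- `S` is monotone. -/
def SMon {V : Type} (s ρ : V → ℕ) (S : V → V → Prop) : Prop :=
  ∀ p q p' q', S p q → S p' q' → s p = s p' → ρ p < ρ p' → ρ q ≤ ρ q'

/-! ## Graphs -/

/-- `G - t` is weakly leveled planar with the levels `lev` and the positions `pos`, and the first vertex
of the lowest level may be joined to the first vertices of all levels; `t` is joined only to the last
vertices of the levels. -/
structure Lvl {V : Type} (G : SimpleGraph V) (t : V) (lev pos : V → ℕ) : Prop where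
  inj : ∀ u v, u ≠ t → v ≠ t → lev u = lev v → pos u = pos v → u = v
  edge : ∀ u v, u ≠ t → v ≠ t → G.Adj u v → lev u ≤ lev v →
    (lev u = lev v ∧ ∀ w, w ≠ t → lev w = lev u → ¬ (pos u < pos w ∧ pos w < pos v) ∧
      ¬ (pos v < pos w ∧ pos w < pos u)) ∨
    lev v = lev u + 1 ∨
    ((∀ w, w ≠ t → lev u ≤ lev w ∧ (lev w = lev u → pos u ≤ pos w)) ∧
      ∀ w, w ≠ t → lev w = lev v → pos v ≤ pos w)
  mono : ∀ u v u' v', u ≠ t → v ≠ t → u' ≠ t → v' ≠ t → G.Adj u v → G.Adj u' v' →
    lev v = lev u + 1 → lev u' = lev u → lev v' = lev v → pos u < pos u' → pos v ≤ pos v'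
  last : ∀ u, G.Adj u t → ∀ w, w ≠ t → lev w = lev u → pos w ≤ pos u

/-- `G` is weakly leveled planar. -/
structure WLev {V : Type} (G : SimpleGraph V) (lev pos : V → ℕ) : Prop where
  inj : ∀ u v, lev u = lev v → pos u = pos v → u = v
  edge : ∀ u v, G.Adj u v → lev u ≤ lev v →
    (lev u = lev v ∧ ∀ w, lev w = lev u → ¬ (pos u < pos w ∧ pos w < pos v) ∧
      ¬ (pos v < pos w ∧ pos w < pos u)) ∨
    lev v = lev u + 1
  mono : ∀ u v u' v', G.Adj u v → G.Adj u' v' →
    lev v = lev u + 1 → lev u' = lev u → lev v' = lev v → pos u < pos u' → pos v ≤ pos v'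

/-- all separating triangles of `T` contain `a` -/
def Hit {V : Type} (T : SimpleGraph V) (a : V) : Prop :=
  ∀ x y z, T.Adj x y → T.Adj y z → T.Adj z x → a ≠ x → a ≠ y → a ≠ z →
    (T.induce {v | v ≠ x ∧ v ≠ y ∧ v ≠ z}).Preconnected

end Pool.Agent.SGL
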