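import Pool.Agent.SGL.StmtsG
import Pool.Agent.SGD.Stmts

/-!
# Squad SGL (MP_41797f_co), part S: the sweep as a sequence, slices and the x-order

Every row: file `Pool/Agent/HelperNN_SGL/XXX.lean`, import `Pool.Agent.SGL.StmtsS`, namespace
`Pool.Agent.SGL.HNN`, theorem `xxx (hypotheses = rows in uses, in this order) : XxxStmt`.

Tools on main (all proved): see the header of `Pool/Agent/SGD/Stmts.lean`; rows of SGD:
`Helper95_SGD/STP.lean` (`stp_aux`, `con_mem`, `chain_of_con`), `Helper40_SGD/ARC.lean` (`tri_mid`,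
`chain_eq`, `arc : ArcStmt`), `Helper59_SGD/CLO.lean`, `Helper77_SGD/BND.lean`,
`Helper5_SGD/BN2.lean`, `Helper49_SGD/EXG.lean`, `Helper97_SGD/INI.lean`,
`Helper27_SGD/SIZ.lean` (`states`: the induction over the states),
`Pool.Agent.SGP.H56` (`Helper56_SGP/CTR.lean`: `con_left`, `con_right`, `con_split`, `uniq_split`,
`con_pred`, `con_succ`, `chain_con`, `contour_nb`, `two`).

PICTURE.  `c` is the left lower corner, `a` the right corner (far away), `b` the top.  `K` grows from
`∅`; the contour `C` goes from `c` to `a`, the part inside is below it; a new vertex is put above a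
contiguous part of `C`.
-/

noncomputable section

namespace Pool.Agent.SGL

open Pool.Agent.SGE Pool.Agent.SGP Pool.Agent.SGY Pool.Agent.SGD

/-- The cluster after `j` steps: `{v 1, ..., v j}`. -/
def Kl {V : Type} (v : ℕ → V) (j : ℕ) : Set V := {x | ∃ i, 1 ≤ i ∧ i ≤ j ∧ v i = x}

/-- A sweep as a sequence: `v 0 = c`, `v 1, ..., v N` are the inner vertices, `v (N + 1) = b`; `C j` is
the contour from `c` to `a` after `j` steps, `S j` is the part of `C j` which is covered by `v (j + 1)`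
(all neighbours of `v (j + 1)` in `{v 0, ..., v j, a}`, from left to right). -/
structure Run {V : Type} [Fintype V] (a b c : V) (E : V → V → Prop) (F : V → V → V → Prop) (N : ℕ)
    (v : ℕ → V) (C₁ C S : ℕ → List V) : Prop where
  nt : NT a b [a, c, b] E F
  v0 : v 0 = c
  vb : v (N + 1) = b
  c0 : C 0 = [c, a]
  st : ∀ j, j ≤ N → Stt a b c E F (Kl v j) (C₁ j) (C j)
  inn : Kl v N = Inn a b c E
  inj : ∀ i j, i ≤ N + 1 → j ≤ N + 1 → v i = v j → i = j
  na : ∀ i, i ≤ N + 1 → v i ≠ a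
  stp : ∀ j, j ≤ N → ∃ (P : List V) (p : V) (mid : List V) (q : V) (Q : List V),
    S j = p :: (mid ++ [q]) ∧ C j = P ++ p :: (mid ++ q :: Q) ∧
      C (j + 1) = P ++ p :: v (j + 1) :: q :: Q
  fc : ∀ j, j ≤ N → ∀ x y, F x y (v (j + 1)) → x ∈ Kl v j ∪ {a, c} → y ∈ Kl v j ∪ {a, c} →
    Con (S j) x y
  arc : ∀ j, j < N → ∃ (P : List V) (p q : V) (Q Y : List V),
    C₁ j = P ++ p :: v (j + 1) :: q :: Q ∧ (q :: (Y ++ [p])).IsChain (F (v (j + 1))) ∧ Y.Nodup ∧
      (∀ y, y ∈ Y ↔ E (v (j + 1)) y ∧ y ∈ Kl v j ∪ {c}) ∧ (S j = Y ∨ (p = a ∧ S j = Y ++ [a]))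
  top : S N = C N ∧ (C N).IsChain (fun x y => F x y b)

/-- The pattern property: in the part covered by `v (j + 1)` the elements of `{v 0, ..., v i}` are
contiguous, and they are at the beginning if `j = N` (the vertex `b`). -/
def Pat {V : Type} (N : ℕ) (v : ℕ → V) (S : ℕ → List V) : Prop :=
  ∀ i j, i ≤ j → j ≤ N → ∃ A Y B : List V, S j = A ++ (Y ++ B) ∧ (∀ y ∈ Y, ∃ l, l ≤ i ∧ v l = y) ∧
    (∀ y ∈ A ++ B, ∀ l, l ≤ i → v l ≠ y) ∧ (j = N → A = [])

/-- The properties of the x-coordinates `x (v 0), ..., x (v (j + 1))` at the step `j`: the covered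
part is increasing; the new vertex is between its outer neighbours (`a` is at infinity); and
`σ` = number of the slice: if an older neighbour is followed (preceded) by a neighbour of the slice
of the new vertex then this one is to the right (left) of the new vertex. -/
structure Xg {V : Type} (a : V) (v : ℕ → V) (S : ℕ → List V) (σ : ℕ → ℕ) (x : V → ℝ) (j : ℕ) :
    Prop where
  up : ∀ l m, l ≤ j → m ≤ j → Con (S j) (v l) (v m) → x (v l) < x (v m)
  lo : ∀ l m, l ≤ j → m ≤ j → Con (S j) (v l) (v m) → σ l = σ (j + 1) → σ m < σ (j + 1) →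
    x (v l) < x (v (j + 1))
  hi : ∀ l m, l ≤ j → m ≤ j → Con (S j) (v l) (v m) → σ l < σ (j + 1) → σ m = σ (j + 1) →
    x (v (j + 1)) < x (v m)

/-! ## The sweep -/

/-- **ESP** (medium; uses BND SUB ARC = `BndStmt`, `SubStmt`, `ArcStmt` of SGD).  The step `StpStmt`
with all its data.
PROOF.  Copy `Pool/Agent/Helper95_SGD/STP.lean` (theorems `stp_aux`, `stp`).  `stp_aux` finds
`C₂ = P' ++ x :: (mid' ++ q' :: Q')` with `Y' = x :: (mid' ++ [q'])` and the new contour
`P' ++ x :: v :: q' :: Q'`: return these lists.  The last claim (`F s t v` with `s, t` in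
`K ∪ {a, c}` gives `Con Y' s t`) is its hypothesis `hcon`.  `Y' = Y ++ [a]` if `p = a`, `Y' = Y`
otherwise, where `Y` is the list of `ArcStmt`. -/
def EspStmt : Prop := ∀ {V : Type} [Fintype V] {a b c : V} {E : V → V → Prop}
  {F : V → V → V → Prop} {K : Set V} {C₁ C₂ : List V}, Stt a b c E F K C₁ C₂ →
  ∀ (P : List V) (p v q : V) (Q : List V), C₁ = P ++ p :: v :: q :: Q →
  (∀ x ∈ C₁, E v x → x = p ∨ x = q) →
  (p = a ∨ ∃ y y', y ≠ y' ∧ y ∈ K ∪ {c} ∧ y' ∈ K ∪ {c} ∧ E v y ∧ E v y') →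
  v ∉ K ∧ v ∈ Inn a b c E ∧
  ∃ (C₁' P' : List V) (p' : V) (mid' : List V) (q' : V) (Q' Y : List V),
    C₂ = P' ++ p' :: (mid' ++ q' :: Q') ∧
    Stt a b c E F (insert v K) C₁' (P' ++ p' :: v :: q' :: Q') ∧
    (q :: (Y ++ [p])).IsChain (F v) ∧ Y.Nodup ∧ (∀ y, y ∈ Y ↔ E v y ∧ y ∈ K ∪ {c}) ∧
    (p' :: (mid' ++ [q']) = Y ∨ (p = a ∧ p' :: (mid' ++ [q']) = Y ++ [a])) ∧
    ∀ x y, F x y v → x ∈ K ∪ {a, c} → y ∈ K ∪ {a, c} → Con (p' :: (mid' ++ [q'])) x y

/-- **BTP** (medium; uses BND BN2 = `BndStmt`, `Bn2Stmt` of SGD).  The last step: the vertex `b`.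
PROOF.  Let `Inn a b c E ⊆ K`.  A vertex `z` with `Rel E z`, `z ∉ K ∪ {a, c}` is `b` (definition of
`Inn`), and `b ∉ K ∪ {a, c}` (`h.sub`, `NT.nd` of `[a, c, b]`).
(1) `F x y b`, `x, y ∈ K ∪ {a, c}`: `onE E (K ∪ {a, c}) x y` (`NT.fe`), and there is no face
`onF F (K ∪ {a, c}) x y z` (`NT.fn`: `z = b`); `BndStmt` for `h.n2`: `Con C₂ x y`, or `x = a` and
`y = c`; in the second case `Con [a, c, b] a c`, so `Bn2Stmt` for `h.nt` says that there is no face
`F a c b`: contradiction.
(2) `Con C₂ x y`: by `Bn2Stmt` for `h.n2`: `E x y`, `x, y ∈ K ∪ {a, c}` and there is no face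
`onF F _ x y z`.  There is a face `F x y z`: otherwise (`BndStmt` for `h.nt`) `Con [a, c, b] x y` or
`x = b ∧ y = a`; the second is impossible (`b ∉ K ∪ {a, c}`); the first means `x = a, y = c`
(impossible because `a` is the last element of `C₂`, no repetition: `h.n2.ls`, `nd`) or
`x = c, y = b` (impossible).  So `z ∉ K ∪ {a, c}`; `Rel E z` (`NT.rot`, `fe`), so `z = b`. -/
def BtpStmt : Prop := ∀ {V : Type} [Fintype V] {a b c : V} {E : V → V → Prop}
  {F : V → V → V → Prop} {K : Set V} {C₁ C₂ : List V}, Stt a b c E F K C₁ C₂ →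
  Inn a b c E ⊆ K →
  (∀ x y, F x y b → x ∈ K ∪ {a, c} → y ∈ K ∪ {a, c} → Con C₂ x y) ∧
    C₂.IsChain (fun x y => F x y b)

/-- **RUN** (medium; uses EXG INI ESP BTP; the first two are `ExgStmt`, `IniStmt` of SGD).  There is a
sweep.
PROOF.  `N = (Inn a b c E).ncard`.  Claim: for every `n ≤ N` there are `v, C₁, C, S` with `v 0 = c`,
`C 0 = [c, a]`, `Stt a b c E F (Kl v j) (C₁ j) (C j)` for `j ≤ n`, `v` injective on `{1, ..., n}`, `v i`
inner for `1 ≤ i ≤ n` and the fields `stp`, `fc`, `arc` for `j < n`.  Induction as `states` in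
`Helper27_SGD/SIZ.lean`: `IniStmt`; step: `Kl v n` has `n < N` elements, `ExgStmt` gives `P p v' q Q`,
`EspStmt` gives the rest; new functions with `Function.update v (n + 1) v'`, and the same for `C₁`,
`C` at `n + 1`, `S` at `n` (`Kl` of the new `v` at `j ≤ n` is the old one, at `n + 1` it is
`insert v' (Kl v n)`).  Then `n = N`: `Kl v N = Inn a b c E` (contained in it, same finite cardinality),
put `v (N + 1) = b`, `S N = C N`, `C (N + 1) = [c, b, a]`; `C N = c :: (mid ++ [a])` because of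
`h.n2.hd`, `h.n2.ls` and `c ≠ a`; `BtpStmt` gives `fc` for `j = N` and `top`.
`inj`, `na`: inner vertices are not `a, b, c`. -/
def RunStmt : Prop := ∀ {V : Type} [Fintype V] {a b c : V} {E : V → V → Prop}
  {F : V → V → V → Prop}, NT a b [a, c, b] E F → NoSep a E → ∀ N, (Inn a b c E).ncard = N →
  ∃ (v : ℕ → V) (C₁ C S : ℕ → List V), Run a b c E F N v C₁ C S

/-! ## The pattern -/

/-- **LCT** (easy-medium; uses nothing).  A chain of a relation with unique successors inside another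
one is contiguous.
PROOF.  `Y₀ = y :: Y'`, `y ∈ Y`: `Y = A ++ y :: R` (`List.append_of_mem`).  Claim: if
`(y :: Y').IsChain G`, all elements of `y :: Y'` are in `Y` and `(y :: (R ++ [p])).IsChain G`, `p ∉ Y`
then `y :: R = (y :: Y') ++ B` for some `B` (induction on `Y'`, for all `y`, `R`): `Y' = []`: `B = R`.
`Y' = z :: Y''`: `G y z`; if `R = []` then `G y p`, so `z = p`, but `z ∈ Y`: contradiction; if
`R = r :: R'` then `G y r`, so `z = r`, induction. -/
def LctStmt : Prop := ∀ {V : Type} (G : V → V → Prop), (∀ x y z, G x y → G x z → y = z) →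
  ∀ (p : V) (Y Y₀ : List V), (Y ++ [p]).IsChain G → p ∉ Y → Y₀.IsChain G → (∀ y ∈ Y₀, y ∈ Y) →
  ∃ A B, Y = A ++ (Y₀ ++ B)

/-- **PAT** (medium; uses ARC CLO LCT; the first two are `ArcStmt`, `CloStmt` of SGD).  The pattern
for two states.
PROOF.  If `v` has no neighbour in `K₀ ∪ {c}`: `A = Y`, `Y₀ = B = []`.  Otherwise `v ∈ D₁` by
`CloStmt` for the first state (`v` has an `offE`-edge outside `K₀ ∪ {c}`: `h₀.r1`, `Rel E v`; if
`v ∉ D₁` then `v` has no neighbour in `K₀ ∪ {c}`).  `v ≠ a, b`, so `D₁ = P₀ ++ p₀ :: v :: q₀ :: Q₀`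
(`v` is neither the first nor the last element: `NT.hd`, `NT.ls` of `h₀.n1`).  `ArcStmt`: `Y₀` with
`(q₀ :: (Y₀ ++ [p₀])).IsChain (F v)` and the elements `E v y ∧ y ∈ K₀ ∪ {c}`.  They are in `Y`.  `p ∉ Y`
because `p ∈ C₁` is not in `K ∪ {c}` (`contour_nb`).  `LctStmt` with `G = F v` (`NT.fn`).  The elements
of `A ++ B` are in `Y`, so they are neighbours of `v`, and not in `Y₀` (`Y.Nodup`), so not in
`K₀ ∪ {c}`. -/
def PatStmt : Prop := ∀ {V : Type} [Fintype V] {a b c : V} {E : V → V → Prop}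
  {F : V → V → V → Prop} {K₀ K : Set V} {D₁ D₂ C₁ C₂ : List V}, Stt a b c E F K₀ D₁ D₂ →
  Stt a b c E F K C₁ C₂ → K₀ ⊆ K → ∀ (P : List V) (p v q : V) (Q Y : List V),
  C₁ = P ++ p :: v :: q :: Q → (q :: (Y ++ [p])).IsChain (F v) → Y.Nodup →
  (∀ y, y ∈ Y ↔ E v y ∧ y ∈ K ∪ {c}) →
  ∃ A Y₀ B, Y = A ++ (Y₀ ++ B) ∧ (∀ y ∈ Y₀, y ∈ K₀ ∪ {c}) ∧ ∀ y ∈ A ++ B, y ∉ K₀ ∪ {c}

/-- **PAB** (medium; uses nothing).  The pattern for the vertex `b`.
PROOF.  `h.nt.bd` is `Tri (Fan E F) [b, a, c, b, a]`: `Fan E F c b a`: a list `l` with head `c`, last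
element `a`, `l.IsChain (F b)`, no repetition, `E b z ↔ z ∈ l`.  `C = l`: both are chains of `F b`
(`F x y b` gives `F b x y` by `NT.rot` twice) which start with `c` and end with `a`, no repetition:
`H40.chain_eq` (file `Pool/Agent/Helper40_SGD/ARC.lean`; `F b x y`, `F b x z` gives `y = z` by
`NT.fn`).  `h.n1.bd`: `Tri (Fan ..) (b :: (C₁ ++ [a]))`, `C₁ = L ++ [w, b]` (at least two elements:
head `a`, last `b`, `a ≠ b`): the last triple is `w, b, a` (`H40.tri_mid`): a list `l'` with head `w`,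
last element `a`, `l'.IsChain (offF F _ b)`, no repetition, `offE E _ b z ↔ z ∈ l'`.  `w ∈ l`,
`l = Y ++ w :: R`, and `l' = w :: R` by `H40.chain_eq` (the chain `w :: R` of `F b` ends with `a`).
`B = w :: R`: its elements are not in `K ∪ {c}`.  An element `y` of `Y` is a neighbour of `b`; if
`y ∉ K ∪ {c}` then `offE E _ b y` (`b ∉ K ∪ {c}`), so `y ∈ l' = w :: R`, contradiction to `l.Nodup`. -/
def PabStmt : Prop := ∀ {V : Type} [Fintype V] {a b c : V} {E : V → V → Prop}
  {F : V → V → V → Prop} {K : Set V} {C₁ C₂ : List V}, Stt a b c E F K C₁ C₂ →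
  ∀ C : List V, C.head? = some c → C.getLast? = some a → C.Nodup →
  C.IsChain (fun x y => F x y b) →
  ∃ Y B, C = Y ++ B ∧ (∀ y ∈ Y, y ∈ K ∪ {c}) ∧ ∀ y ∈ B, y ∉ K ∪ {c}

/-- **RPT** (easy-medium; uses PAT PAB).  A sweep has the pattern property.
PROOF.  `Kl v i ∪ {c}` is the set of the `v l`, `l ≤ i` (`v 0 = c`).  `j < N`: the field `arc` gives
`C₁ j = P ++ p :: v (j + 1) :: q :: Q` and `Y`; `PatStmt` for the states `i` and `j`
(`Kl v i ⊆ Kl v j`): `Y = A ++ (Y₀ ++ B)`.  If `S j = Y` done.  If `S j = Y ++ [a]`: `B ++ [a]`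
instead of `B`; `v l ≠ a` (`na`).  `j = N`: `S N = C N` (`top`), `PabStmt` for the state `i` and
`C = C N` (`hd`, `ls`, `nd` of `(st N).n2`): `A = []`. -/
def RptStmt : Prop := ∀ {V : Type} [Fintype V] {a b c : V} {E : V → V → Prop}
  {F : V → V → V → Prop} {N : ℕ} {v : ℕ → V} {C₁ C S : ℕ → List V},
  Run a b c E F N v C₁ C S → Pat N v S

/-! ## The x-coordinates -/

/-- **XSL** (medium; uses nothing).  The choice of one new x-coordinate (pure lemma on lists and real
numbers).  `T` is the covered part without `a`, `p` its first element; `lq`: the last element of `T`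
is a right neighbour of the new vertex (false if the right neighbour is `a`).
PROOF.  Lower bound `lo`: `x` of the last element of `A` if `A` and `Y` are not empty, otherwise
`lo = x p`; in both cases `x p ≤ lo`.  Upper bounds: `x q` if `lq` (`q` = the last element of `T`); `x` of
the first element of `B` if `Y` and `B` are not empty; `M` if `A` or `Y` is empty (then `lo = x p < M`).
All upper bounds are `> lo` (`List.pairwise_append`): if `A`, `Y` are not empty then the last element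
of `A` is before all elements of `Y ++ B`, in particular before the last element of `T`.  If
`lo = x p` then `p` is before `q` (`2 ≤ T.length`), and if `Y` and `B` are not empty and `A = []` then
`p ∈ Y` is before the first element of `B` (if `A ≠ []` then `Y = []`, there is no such bound).  So
there is `ξ` above `lo` and below the (at most three) upper bounds and outside `Z`
(`Set.Ioo_infinite`, `Set.Infinite.exists_notMem_finite` or `(Set.Ioo_infinite h).diff Z`).
`Con T u w` with `u ∉ L`, `w ∈ L`: `w ∈ Y` (elements of `A ++ B` are not in `L`), `u` is in `A` or in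
`B`; `x u < x w` (`T.Pairwise`, `Con`), elements of `B` have larger `x` than those of `Y`, so `u ∈ A`,
`x u ≤ lo` (all elements of `A` are `≤` the last one).  `u ∈ L`, `w ∉ L`: in the same way `u ∈ Y`,
`w ∈ B`, and `x w` is at least `x` of the first element of `B`. -/
def XslStmt : Prop := ∀ {V : Type} (x : V → ℝ) (T A Y B : List V) (p : V) (L : Set V)
  (Z : Set ℝ) (M : ℝ) (lq : Prop), T.Pairwise (fun u w => x u < x w) → T.head? = some p →
  T = A ++ (Y ++ B) → (∀ y ∈ Y, y ∈ L) → (∀ y ∈ A ++ B, y ∉ L) → (lq → 2 ≤ T.length) →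
  Z.Finite → x p < M →
  ∃ ξ : ℝ, ξ ∉ Z ∧ x p < ξ ∧ (∀ q, lq → T.getLast? = some q → ξ < x q) ∧
    ((A = [] ∨ Y = []) → ξ < M) ∧
    (∀ u w, Con T u w → u ∉ L → w ∈ L → x u < ξ) ∧
    (∀ u w, Con T u w → u ∈ L → w ∉ L → ξ < x w)

/-- **XOR** (medium-strong; uses XSL).  The x-coordinates exist, for every slicing `σ`.
PROOF.  Induction on `n ≤ N + 1`: there is `x` with: `x (v i) ≠ x (v j)` for `i < j ≤ n`;
`x (v 0) < x (v i)` for `1 ≤ i ≤ n`; `(C n).dropLast` is increasing (`Pairwise`); `Xg a v S σ x j` for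
`j < n`; and if `n = N + 1` then `x (v (N + 1)) < x (v i)` for `1 ≤ i ≤ N`.  `n = 0`: `C 0 = [c, a]`.
Step `n → n + 1`, `n ≤ N`: `stp`: `S n = p :: (mid ++ [q])`, `C n = P ++ p :: (mid ++ q :: Q)`; `a` is the
last element of `C n` and not repeated (`(st n).n2`), so `q = a` and `Q = []`, or `a ∉ S n`.  `T` = `S n`
without `a`: `T = S n` and `lq` true if `a ∉ S n`, `T = p :: mid` and `lq` false if `q = a`; in both cases
`T` is a contiguous part of `(C n).dropLast`, so increasing, and all its elements are `v l`, `l ≤ n`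
(the elements of `C n` different from `a` are in `Kl v n ∪ {c}`: `contour_nb` for `(st n).n2`).
`L = {v l | l ≤ n, σ l < σ (n + 1)}`: if it is empty then `A = T`, `Y = B = []`; otherwise let `i` be the
largest `l ≤ n` with `σ l < σ (n + 1)`; by monotonicity `L = {v l | l ≤ i}` and `Pat` for `i`, `n` gives
`S n = A ++ (Y ++ B)`; remove `a` (if `q = a` then `B = B' ++ [a]`, because `a` is the last element
and not in `Y`; or `B = []`, `Y = []` and `A = A' ++ [a]`, then `T = A'`).  `Z = {x (v l) | l ≤ n}`.  `M`: if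
`n = N` the smallest of the numbers `x c + 1` and `x (v i)`, `1 ≤ i ≤ N` (all are `> x c`; for example
with `Finset.exists_min_image`, or: there is `M` with `x c < M ≤ x (v i)` for all of them, by induction
on `N`), otherwise `M = x p + 1`.  For `n = N`: `S N = C N`, `p = c`, and `A = []` by `Pat` (or `L` is
empty, `Y = []`), so `ξ < M`.  `XslStmt` gives `ξ`; the new `x` is
`Function.update x (v (n + 1)) ξ` (`inj`: the old values are not changed).  New contour without `a`:
`P ++ p :: v (n + 1) :: (q :: Q).dropLast`: increasing (`x p < ξ`, `ξ < x q` if `q ≠ a`).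
`x (v 0) < ξ`: `x c ≤ x p` (`p = c` or `c` is an element of `P`, the first element of `C n`). -/
def XorStmt : Prop := ∀ {V : Type} [Fintype V] {a b c : V} {E : V → V → Prop}
  {F : V → V → V → Prop} {N : ℕ} {v : ℕ → V} {C₁ C S : ℕ → List V},
  Run a b c E F N v C₁ C S → Pat N v S → ∀ σ : ℕ → ℕ, Monotone σ →
  ∃ x : V → ℝ, (∀ i j, i ≤ N + 1 → j ≤ N + 1 → x (v i) = x (v j) → i = j) ∧
    (∀ i, 1 ≤ i → i ≤ N + 1 → x (v 0) < x (v i)) ∧
    (∀ i, 1 ≤ i → i ≤ N → x (v (N + 1)) < x (v i)) ∧ ∀ j, j ≤ N → Xg a v S σ x j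

/-- **RKS** (medium; uses nothing).  From real x-coordinates to the columns `ρ`: the layout.
PROOF.  `k u` = the `i ≤ N + 1` with `v i = u` (`0` if there is none; `if h : ∃ i, i ≤ N + 1 ∧ v i = u then
h.choose else 0`; by `inj`, `k (v i) = i` for `i ≤ N + 1`); `ρ u` = number of the `i ∈ Finset.range (N + 2)`
with `x (v i) < x u`.  Every `u ≠ a` with `Rel E u` is `v i` for an `i ≤ N + 1` (`u = c = v 0`,
`u = b = v (N + 1)`, or `u ∈ Inn a b c E = Kl v N`).  `x (v i) < x (v j)` gives `ρ (v i) < ρ (v j)`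
(`Finset.card_lt_card`: `i` itself is in the second set only), so `ρ` is injective on the `v i`; `ρ u ≤ N + 1`
because `u = v i` does not count itself.  `rc`, `rb`: the hypotheses on `x`.
`fa`: `F u w z`, `k u, k w < k z`: `z = v (j + 1)`, `j ≤ N` (`k z = j + 1`), `u = v l`, `w = v m`,
`l, m ≤ j`; they are in `Kl v j ∪ {a, c}`, `Run.fc` gives `Con (S j) (v l) (v m)`, and `Xg` for `j` gives
the three claims.  `fb`: `F u a z` (`u, z ≠ a`, `u ≠ z`, all `Rel E`: `fe`, `rot`, `sym`, `irr`), so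
`k u ≠ k z`; if `k z < k u = j + 1` then `F a z u` (rotation) and `fc` give `Con (S j) a z`; but `S j` is a
contiguous part of `C j` (`stp`), `a` is the last element of `C j` and not repeated (`(st j).n2.ls`, `nd`):
contradiction. -/
def RksStmt : Prop := ∀ {V : Type} [Fintype V] {a b c : V} {E : V → V → Prop}
  {F : V → V → V → Prop} {N : ℕ} {v : ℕ → V} {C₁ C S : ℕ → List V},
  Run a b c E F N v C₁ C S → ∀ (σ : ℕ → ℕ) (x : V → ℝ),
  (∀ i j, i ≤ N + 1 → j ≤ N + 1 → x (v i) = x (v j) → i = j) →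
  (∀ i, 1 ≤ i → i ≤ N + 1 → x (v 0) < x (v i)) →
  (∀ i, 1 ≤ i → i ≤ N → x (v (N + 1)) < x (v i)) → (∀ j, j ≤ N → Xg a v S σ x j) →
  ∃ k ρ : V → ℕ, Lay a b c E F N σ k ρ

/-! **LAY** (easy; uses RUN RPT XOR RKS; `LayStmt` is in `SGL/StmtsG.lean`).  The result of part S.
PROOF.  `RunStmt` with `N = (Inn a b c E).ncard`, `RptStmt`, `XorStmt`, `RksStmt`.
Final theorem of part S (file of LAY, after all rows are proved): `LayStmt` without hypotheses. -/

end Pool.Agent.SGL
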