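import Pool.Agent.SGL.StmtsG
import Pool.Agent.SGL.StmtsS

/-!
# Squad SGL (MP_41797f_co), upgrade U: one-page graphs on the lowest and the highest level, definitions

THEOREM U.  As Theorem B (`SGL/Defs.lean`), but the lowest level together with `t` (as last vertex) may be
any one-page graph with its edges below, and the highest level together with `t` any one-page graph with
its edges above.  For two levels these are the two-track graphs of squad SGD.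

The points: `v = (x v, B ^ s v + y v)`, `s v` the slice, `B` large; `a = (W, 0)`, `W` much larger.
-/

noncomputable section

namespace Pool.Agent.SGL

open Pool.Agent.SGE Pool.Agent.SGP Pool.Agent.SGY Pool.Agent.SGD

/-- the point with the coordinates `x v`, `y v` -/
def pv {V : Type} (x y : V → ℝ) (v : V) : ℝ × ℝ := (x v, y v)

/-- The bottom slice `K ∪ {c}`: coordinates in which the corner `a` is at infinity to the right and the
corner `b` at infinity above.  Positions: `ps c a k π`: `a` at `0`, `π 1, ..., π k` in `K`, `c` at `k + 1`;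
`x` is decreasing.  `lo`, `l0`: the points between the ends of an edge are above the edge. -/
structure EndB {V : Type} (a c : V) (F : V → V → V → Prop) (K : Set V) (k : ℕ) (D : ℕ → ℕ)
    (x y : V → ℝ) (π : ℕ → V) : Prop where
  pin : ∀ i, 1 ≤ i → i ≤ k → π i ∈ K
  pij : ∀ i j, 1 ≤ i → i ≤ k → 1 ≤ j → j ≤ k → π i = π j → i = j
  psu : ∀ u ∈ K, ∃ i, 1 ≤ i ∧ i ≤ k ∧ π i = u
  xd : ∀ i j, 1 ≤ i → i < j → j ≤ k → x (π j) < x (π i)
  xc : ∀ u ∈ K, x c < x u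
  yc : ∀ u ∈ K, y c < y u
  yd : ∀ u ∈ K ∪ {c}, ∀ v ∈ K ∪ {c}, u ≠ v → y u ≠ y v
  gp : ∀ u ∈ K ∪ {c}, ∀ v ∈ K ∪ {c}, ∀ w ∈ K ∪ {c}, u ≠ v → u ≠ w → v ≠ w →
    o (pv x y u) (pv x y v) (pv x y w) ≠ 0
  f3 : ∀ u ∈ K ∪ {c}, ∀ v ∈ K ∪ {c}, ∀ w ∈ K ∪ {c}, F u v w →
    0 < o (pv x y u) (pv x y v) (pv x y w)
  f2 : ∀ u ∈ K ∪ {c}, ∀ v ∈ K ∪ {c}, ∀ w, w ∉ K ∪ {a, c} → F u v w → x u < x v
  fa : ∀ u ∈ K ∪ {c}, ∀ w ∈ K ∪ {c}, F u a w → y u < y w
  lo : ∀ i l j, 1 ≤ i → i < l → l < j → j ≤ k + 1 → Ed k D i j →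
    0 < o (pv x y (ps c a k π j)) (pv x y (ps c a k π i)) (pv x y (ps c a k π l))
  l0 : ∀ l j, 1 ≤ l → l < j → j ≤ k + 1 → Ed k D 0 j → y (ps c a k π j) < y (ps c a k π l)

/-- The top slice `U ∪ {b}`: coordinates in which the corner `a` is at infinity to the right and the
corner `c` at infinity below.  Positions: `ps a b k π`: `b` at `0`, `π 1, ..., π k` in `U`, `a` at `k + 1`;
`x` is increasing.  `hi`, `h0`: the points between the ends of an edge are below the edge. -/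
structure EndT {V : Type} (a b : V) (F : V → V → V → Prop) (U : Set V) (k : ℕ) (D : ℕ → ℕ)
    (x y : V → ℝ) (π : ℕ → V) : Prop where
  pin : ∀ i, 1 ≤ i → i ≤ k → π i ∈ U
  pij : ∀ i j, 1 ≤ i → i ≤ k → 1 ≤ j → j ≤ k → π i = π j → i = j
  psu : ∀ u ∈ U, ∃ i, 1 ≤ i ∧ i ≤ k ∧ π i = u
  xd : ∀ i j, 1 ≤ i → i < j → j ≤ k → x (π i) < x (π j)
  xb : ∀ u ∈ U, x b < x u
  yb : ∀ u ∈ U, y u < y b
  yd : ∀ u ∈ U ∪ {b}, ∀ v ∈ U ∪ {b}, u ≠ v → y u ≠ y v
  gp : ∀ u ∈ U ∪ {b}, ∀ v ∈ U ∪ {b}, ∀ w ∈ U ∪ {b}, u ≠ v → u ≠ w → v ≠ w →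
    o (pv x y u) (pv x y v) (pv x y w) ≠ 0
  f3 : ∀ u ∈ U ∪ {b}, ∀ v ∈ U ∪ {b}, ∀ w ∈ U ∪ {b}, F u v w →
    0 < o (pv x y u) (pv x y v) (pv x y w)
  f2 : ∀ u, u ∉ U ∪ {a, b} → ∀ v ∈ U ∪ {b}, ∀ w ∈ U ∪ {b}, F u v w → x w < x v
  fa : ∀ u ∈ U ∪ {b}, ∀ w ∈ U ∪ {b}, F u a w → y u < y w
  hi : ∀ i l j, i < l → l < j → j ≤ k → Ed k D i j →
    0 < o (pv x y (ps a b k π j)) (pv x y (ps a b k π i)) (pv x y (ps a b k π l))
  h0 : ∀ i l, i < l → l ≤ k → Ed k D i (k + 1) → y (ps a b k π l) < y (ps a b k π i)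

/-- All slices: `s` is the slice of a vertex `≠ a`, `x` the column, `y` the height inside the slice. -/
structure Plan {V : Type} (a b c : V) (E : V → V → Prop) (F : V → V → V → Prop) (h : ℕ)
    (s : V → ℕ) (x y : V → ℝ) : Prop where
  sc : s c = 0
  sb : s b = h
  sl : ∀ v ∈ RR a E, s v ≤ h
  xd : ∀ u ∈ RR a E, ∀ v ∈ RR a E, u ≠ v → x u ≠ x v
  yd : ∀ u ∈ RR a E, ∀ v ∈ RR a E, u ≠ v → s u = s v → y u ≠ y v
  gp : ∀ u ∈ RR a E, ∀ v ∈ RR a E, ∀ w ∈ RR a E, s u = s v → s v = s w → u ≠ v → u ≠ w →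
    v ≠ w → o (pv x y u) (pv x y v) (pv x y w) ≠ 0
  f3 : ∀ u v w, F u v w → u ≠ a → v ≠ a → w ≠ a → s u = s v → s v = s w →
    0 < o (pv x y u) (pv x y v) (pv x y w)
  f1 : ∀ u v w, F u v w → u ≠ a → v ≠ a → w ≠ a → s u < s w → s v < s w → x u < x v
  f2 : ∀ u v w, F u v w → u ≠ a → v ≠ a → w ≠ a → s u < s v → s v = s w → x w < x v
  fa : ∀ u w, F u a w → s u < s w ∨ (s u = s w ∧ y u < y w)
  cx : ∀ v ∈ RR a E, v ≠ c → s v < h → x c < x v
  cy : ∀ v ∈ RR a E, v ≠ c → s v = 0 → y c < y v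
  bx : ∀ v ∈ RR a E, v ≠ b → s v = h → x b < x v
  by_ : ∀ v ∈ RR a E, v ≠ b → s v = h → y v < y b

open Classical in
/-- The points. -/
def cu {V : Type} (a : V) (s : V → ℕ) (x y : V → ℝ) (B W : ℝ) (v : V) : ℝ × ℝ :=
  if v = a then (W, 0) else (x v, B ^ s v + y v)

/-- Edges `A` below the bottom slice: `p` is the left end, the right end `q` may be `a`. -/
structure ArcL {V : Type} (a : V) (R : Set V) (s ρ : V → ℕ) (f : V → ℝ × ℝ)
    (A : V → V → Prop) : Prop where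
  l : ∀ p q, A p q → p ∈ R ∧ s p = 0
  r : ∀ p q, A p q → q = a ∨ (q ≠ a ∧ q ∈ R ∧ s q = 0 ∧ ρ p < ρ q)
  m : ∀ p q, A p q → ∀ z ∈ R, s z = 0 → ρ p < ρ z → (q = a ∨ ρ z < ρ q) →
    0 < o (f p) (f q) (f z)
  n : ∀ p q p' q', A p q → A p' q' → ρ p < ρ p' → (q = a ∨ ρ p' < ρ q) →
    q = a ∨ (q' ≠ a ∧ ρ q' ≤ ρ q)

/-- Edges `A` above the top slice `h`. -/
structure ArcH {V : Type} (a : V) (R : Set V) (h : ℕ) (s ρ : V → ℕ) (f : V → ℝ × ℝ)
    (A : V → V → Prop) : Prop where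
  l : ∀ p q, A p q → p ∈ R ∧ s p = h
  r : ∀ p q, A p q → q = a ∨ (q ≠ a ∧ q ∈ R ∧ s q = h ∧ ρ p < ρ q)
  m : ∀ p q, A p q → ∀ z ∈ R, s z = h → ρ p < ρ z → (q = a ∨ ρ z < ρ q) →
    o (f p) (f q) (f z) < 0
  n : ∀ p q p' q', A p q → A p' q' → ρ p < ρ p' → (q = a ∨ ρ p' < ρ q) →
    q = a ∨ (q' ≠ a ∧ ρ q' ≤ ρ q)


/-- Graphs `G` with a vertex `t` and levels `0, ..., h` of the other vertices: between levels edges only
to the next level, without crossings (`mono`); inside the levels `1, ..., h - 1` only edges of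
consecutive vertices, and `t` is joined only to the last vertices of these levels (`path`, `last`); the
level `0` with `t` as last vertex has a one-page book embedding (`low`), the same for the level `h`
(`top`); the first vertex of the level `0` may be joined to the first vertices of all levels. -/
structure LvU {V : Type} (G : SimpleGraph V) (t : V) (h : ℕ) (lev pos : V → ℕ) : Prop where
  inj : ∀ u v, u ≠ t → v ≠ t → lev u = lev v → pos u = pos v → u = v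
  le : ∀ v, v ≠ t → lev v ≤ h
  ne0 : ∃ v, v ≠ t ∧ lev v = 0
  neh : ∃ v, v ≠ t ∧ lev v = h
  path : ∀ u v w, u ≠ t → v ≠ t → w ≠ t → G.Adj u v → lev u = lev v → 1 ≤ lev u → lev u < h →
    lev w = lev u → ¬ (pos u < pos w ∧ pos w < pos v)
  next : ∀ u v, u ≠ t → v ≠ t → G.Adj u v → lev u < lev v → lev v = lev u + 1 ∨
    (lev u = 0 ∧ (∀ w, w ≠ t → lev w = 0 → pos u ≤ pos w) ∧
      ∀ w, w ≠ t → lev w = lev v → pos v ≤ pos w)
  mono : ∀ u v u' v', u ≠ t → v ≠ t → u' ≠ t → v' ≠ t → G.Adj u v → G.Adj u' v' →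
    lev v = lev u + 1 → lev u' = lev u → lev v' = lev v → pos u < pos u' → pos v ≤ pos v'
  last : ∀ u w, G.Adj u t → 1 ≤ lev u → lev u < h → w ≠ t → lev w = lev u → pos w ≤ pos u
  one : ∀ i, (i = 0 ∨ i = h) → ∀ p q r s, p ≠ t → q ≠ t → r ≠ t → lev p = i → lev q = i →
    lev r = i → (s = t ∨ (lev s = i ∧ pos r < pos s)) → pos p < pos q → pos q < pos r →
    ¬ (G.Adj p r ∧ G.Adj q s)

end Pool.Agent.SGL
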