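import Pool.Agent.SGL.StmtsR
import Pool.Agent.SGL.Defs

/-!
# Squad SGL (MP_41797f_co), part A: augmentation

THEOREM A.  Let `T` be a maximal planar graph, `G ≤ T`, `a` a vertex, and suppose that every separating
triangle of `T` which is contained in `G` contains `a` (for example: `G` is any triangle-free planar
graph).  Then there is a triangulation `T' ≥ G` all of whose separating triangles contain `a`.

PROOF.  Take such a `T` with the smallest number of bad triangles (non-facial, without `a`).  Let `x y z`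
be bad, `x y` not in `G`, `u`, `v` the apexes of `x y`.  The triangle separates `u` from `v`, so `u`, `v` are
not adjacent and their common neighbours are among `x, y, z`: the flip `x y ↦ u v` destroys all non-facial
triangles on `x y` and creates at most `u v z`.  By minimality `z` is adjacent to `u` and `v`, `a ≠ u, v`, and
`x y` is in no other bad triangle.  If `x u z` is non-facial then `x u` is not in `G`; so the same holds for
`x u`, and so on: all vertices which are reached are neighbours of `z` and different from `a`, and with `z`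
they are closed under adjacency.  So `a` is one of them, contradiction.

Every row: file `Pool/Agent/HelperNN_SGL/XXX.lean`, import `Pool.Agent.SGL.StmtsA`, namespace
`Pool.Agent.SGL.HNN`, theorem `xxx (hypotheses = rows in uses, in this order) : XxxStmt`.
-/

noncomputable section

namespace Pool.Agent.SGL

open Pool.Agent.SGE Pool.Agent.SGP Pool.Agent.SGY Pool.Agent.SGD

/-! ## Definitions -/

/-- A triangulation of the sphere: `E` is the adjacency relation, `Φ u v w`: the triangle `u v w` is a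
face (counterclockwise). -/
structure Sph {V : Type} [Fintype V] (E : V → V → Prop) (Φ : V → V → V → Prop) : Prop where
  sym : ∀ u v, E u v → E v u
  irr : ∀ u, ¬ E u u
  rot : ∀ u v w, Φ u v w → Φ v w u
  fn : ∀ u v w w', Φ u v w → Φ u v w' → w = w'
  fe : ∀ u v w, Φ u v w → E u v
  cyc : ∀ z v, E z v → Cyc E Φ z v
  hom : ∀ Z : V → V → ZMod 2, (∀ u v, Z u v = Z v u) → (∀ u v, Z u v ≠ 0 → E u v) →
    (∀ u, ∑ v, Z u v = 0) → ∃ A : V → V → ZMod 2, (∀ u v w, Φ u v w → A u v = A v w) ∧
      ∀ u v, Z u v = A u v + A v u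
  con : ∀ u v x y, E u v → E x y → Relation.ReflTransGen E u x

/-- `p q` is the edge `x y` -/
def isE {V : Type} (x y p q : V) : Prop := (p = x ∧ q = y) ∨ (p = y ∧ q = x)

/-- the edge `x y` is replaced by `u v` -/
def flE {V : Type} (E : V → V → Prop) (x y u v : V) : V → V → Prop :=
  fun p q => (E p q ∧ ¬ isE x y p q) ∨ isE u v p q

/-- the faces `x y u` and `y x v` are replaced by `v y u` and `u x v` -/
def flF {V : Type} (Φ : V → V → V → Prop) (x y u v : V) : V → V → V → Prop :=
  addF (addF (fun p q r => Φ p q r ∧ ¬ isE x y p q ∧ ¬ isE x y q r ∧ ¬ isE x y r p) v y u) u x v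

/-- a non-facial triangle -/
def NF {V : Type} (E : V → V → Prop) (Φ : V → V → V → Prop) (x y z : V) : Prop :=
  E x y ∧ E y z ∧ E z x ∧ ¬ Φ x y z ∧ ¬ Φ y x z

theorem NF.rt {V : Type} [Fintype V] {E : V → V → Prop} {Φ : V → V → V → Prop} (h : Sph E Φ)
    {x y z : V} (n : NF E Φ x y z) : NF E Φ y z x :=
  ⟨n.2.1, n.2.2.1, n.1, fun f => n.2.2.2.1 (h.rot _ _ _ (h.rot _ _ _ f)),
    fun f => n.2.2.2.2 (h.rot _ _ _ f)⟩

theorem NF.sw {V : Type} [Fintype V] {E : V → V → Prop} {Φ : V → V → V → Prop} (h : Sph E Φ)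
    {x y z : V} (n : NF E Φ x y z) : NF E Φ y x z :=
  ⟨h.sym _ _ n.1, h.sym _ _ n.2.2.1, h.sym _ _ n.2.1, n.2.2.2.2, n.2.2.2.1⟩

theorem Sph.ex {V : Type} [Fintype V] {E : V → V → Prop} {Φ : V → V → V → Prop} (h : Sph E Φ)
    {x y : V} (e : E x y) : ∃ w, Φ x y w := by
  obtain ⟨l, h1, -, -⟩ := h.cyc x y e
  cases l with
  | nil => exact ⟨y, by simpa using h1⟩
  | cons w l => exact ⟨w, by simp at h1; exact h1.1⟩

/-- Triangulations which contain `G` (with the vertex set `R`) such that all non-facial triangles in `G`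
contain `a`. -/
structure Okk {V : Type} [Fintype V] (G : V → V → Prop) (R : Set V) (a : V)
    (E : V → V → Prop) (Φ : V → V → V → Prop) : Prop where
  sph : Sph E Φ
  le : ∀ p q, G p q → E p q
  rel : ∀ p, Rel E p ↔ p ∈ R
  tri : ∀ p q r, NF E Φ p q r → G p q → G q r → G r p → a = p ∨ a = q ∨ a = r

open Classical in
/-- the non-facial triangles without `a` -/
def Bd {V : Type} [Fintype V] (a : V) (E : V → V → Prop) (Φ : V → V → V → Prop) :
    Finset (Finset V) :=
  Finset.univ.filter fun t => ∃ p q r, t = {p, q, r} ∧ NF E Φ p q r ∧ a ≠ p ∧ a ≠ q ∧ a ≠ r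

/-- a triangulation with the smallest number of bad triangles -/
def Mnn {V : Type} [Fintype V] (G : V → V → Prop) (R : Set V) (a : V)
    (E : V → V → Prop) (Φ : V → V → V → Prop) : Prop :=
  Okk G R a E Φ ∧ ∀ E' Φ', Okk G R a E' Φ' → (Bd a E Φ).card ≤ (Bd a E' Φ').card

/-- what the minimality gives for the edges `p q` with a bad triangle `p q z` -/
structure Qp {V : Type} (E : V → V → Prop) (Φ : V → V → V → Prop) (a z : V)
    (Q : V → V → Prop) : Prop where
  sym : ∀ p q, Q p q → Q q p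
  nf : ∀ p q, Q p q → NF E Φ p q z ∧ a ≠ p ∧ a ≠ q
  st : ∀ p q w, Q p q → (Φ p q w ∨ Φ q p w) →
    E z w ∧ a ≠ w ∧ (NF E Φ p w z → Q p w) ∧ (NF E Φ q w z → Q q w)

/-- the vertices which are reached -/
def Yz {V : Type} (E : V → V → Prop) (Φ : V → V → V → Prop) (z : V) (Q : V → V → Prop) :
    Set V :=
  {w | w ≠ z ∧ ((∃ q, Q w q) ∨ ∃ p q, Q p q ∧ Φ p q w ∧ ¬ NF E Φ p w z ∧ ¬ NF E Φ q w z)}

/-! ## Spheres and near-triangulations -/

/-- **NTS** (easy-medium; uses FCY = `FcyStmt` (StmtsR) and BN2 = `Bn2Stmt` (SGD)).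
PROOF.  `rot`: `NT.rot` and the definition of `addF`.  `fn`: an edge `a c`, `c b`, `b a` has no face in `F`
(`Bn2Stmt`; `a, b, c` are different: `NT.nd`).  `fe`: `NT.fe` and `Bn2Stmt` (`Con [a, c, b] a c`,
`Con [a, c, b] c b`, `E b a`).  `cyc`: `FcyStmt`.  `hom`: `NT.hom`; on the outer face
`A a c = A c b = A b a = 0` (no face in `F`).  `con`: `NT.con` for `u` and for `x`, `E` is symmetric. -/
def NtsStmt : Prop := ∀ {V : Type} [Fintype V] {a b c : V} {E : V → V → Prop}
  {F : V → V → V → Prop}, NT a b [a, c, b] E F → Sph E (fF a b c F)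

/-- **SNT** (medium; uses nothing; compare `RfcStmt`, StmtsR, helper2).  Any face may be the outer face.
PROOF.  `x, y, z` are different (`fe`, `rot`, `irr`).  `dF Φ x y z` = the faces except the rotations of
`x y z` (`fn`, `rot`), so it is closed under rotation.  `bd`: `Cyc E Φ x y`: a list `l` with
`(y :: (l ++ [y])).IsChain (Φ x)`; `Φ x y z` and `fn` give `l = z :: l'` (`l ≠ []` because `z ≠ y`); the fan
`Fan E _ z x y` has the list `z :: (l' ++ [y])`; no face `dF .. x y _`.  The same at `y` (`Φ y z x`) and at `z`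
(`Φ z x y`).  `int`: `cyc`, no face at a vertex `≠ x, y, z` is removed.  `hom`: let `A` be as in `Sph.hom`,
`k = A x y`; put `A' u v = A u v + k` if there is `w` with `dF Φ x y z u v w`, otherwise `A' u v = 0`.  If
`E u v` then `u v` has a face in `Φ` (`Sph.ex`); it is removed only for `u v = x y, y z, z x`, where
`A u v = k`.  `con`: `Sph.con` for `E x y`. -/
def SntStmt : Prop := ∀ {V : Type} [Fintype V] {E : V → V → Prop} {Φ : V → V → V → Prop},
  Sph E Φ → ∀ x y z, Φ x y z → NT x z [x, y, z] E (dF Φ x y z)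

/-- **CRN** (easy; uses SNT).  Any vertex may be a corner of the outer triangle.
PROOF.  `Rel E a`: `E a c`, `Φ a c b` (`Sph.ex`), `SntStmt`.  `Rel` of `b`, `c`: `fe`, `rot`. -/
def CrnStmt : Prop := ∀ {V : Type} [Fintype V] {E : V → V → Prop} {Φ : V → V → V → Prop},
  Sph E Φ → ∀ a, Rel E a → ∃ (b c : V) (F : V → V → V → Prop), Rel E b ∧ Rel E c ∧
    NT a b [a, c, b] E F

/-- **NSG** (medium; uses nothing).  If all non-facial triangles contain `a` there is no separation.
PROOF.  Let `U, x, y, z` be as in `NoSep`, `a ∉ U`, and suppose `a ≠ x, y, z`.  Then `x y z` is not `NF`, so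
`Φ x y z` or `Φ y x z`; by symmetry (exchange `x`, `y`) assume `Φ x y z`.  A neighbour of an element of `U`
is in `U` or is `x`, `y`, `z`.  The cyclic list at `x` from `y`: `y, z, t₁, ..., t_m` (`Cyc E Φ x y`, `fn`),
`t_i ≠ x, y, z`, `E t_i t_(i+1)` (`fe`, `rot`), `Φ x z t₁`, `Φ x t_m y`.  So either all `t_i` are in `U` or none.
`m = 0` is impossible: then `Φ x z y`, so the neighbours of `x` are `y, z`, those of `y` are `x, z`
(`Φ y z x`, `Φ y x z`), those of `z` are `x, y`: `x, y, z` are closed under adjacency, contradiction to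
`con` for an element of `U` (it is not `x`, `y`, `z`).  So: if a neighbour `≠ y, z` of `x` is in `U` then all
are, in particular `t₁` (a neighbour of `z`) and `t_m` (a neighbour of `y`).  The same for `y` and `z`
(`Φ y z x`, `Φ z x y`).  Hence either all neighbours `≠ x, y, z` of `x, y, z` are in `U`, or none is.  If
none is, `U` is closed under adjacency, so (`con`, `sym`) `a ∈ U`, contradiction.  If all are: the
vertices not in `U ∪ {x, y, z}` are closed under adjacency, contains `a`, so it contains `x` (`con`),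
contradiction. -/
def NsgStmt : Prop := ∀ {V : Type} [Fintype V] {E : V → V → Prop} {Φ : V → V → V → Prop} (a : V),
  Sph E Φ → Rel E a → (∀ p q r, NF E Φ p q r → a = p ∨ a = q ∨ a = r) → NoSep a E

/-! ## The flip -/

/-- **ROC** (easy-medium; uses nothing).  A cyclic list may be started at any element.
PROOF.  `w ∈ v :: l`.  `w = v`: done.  `l = l₁ ++ w :: l₂`: the list `l₂ ++ v :: l₁` for `w`: split the chain
`v :: (l₁ ++ w :: (l₂ ++ [v]))` (`List.isChain_append`, `List.isChain_cons` ..). -/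
def RocStmt : Prop := ∀ {V : Type} {E : V → V → Prop} {Φ : V → V → V → Prop} {z v w : V},
  Cyc E Φ z v → E z w → Cyc E Φ z w

/-- **FLB** (medium-strong; uses ROC).  The cyclic lists after a flip.
PROOF.  `x, y, u, v` are different (`irr`, `fe`, `rot`, `u ≠ v`); `Φ x y u` means: at `x` after `y` comes
`u`.  Let `E' = flE ..`, `Φ' = flF ..`.  By `RocStmt` it suffices to give one cyclic list at every
vertex `p` (with `E' p p'`, start at `p'`).
`p ≠ x, y, u, v`: the old list (a face with `p` which contains the edge `x y` is a rotation of `x y u` or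
`y x v`, so `p = u` or `p = v`; `E' p q` iff `E p q`).
`p = x`: the list from `y`: `(y :: (l ++ [y])).IsChain (Φ x)`; `Φ x y u`, so `l = u :: l'`; `Φ x v y` (rotation of
`y x v`) and `fn` (for the predecessor: `Φ x s y`, `Φ x v y` give `Φ y x s`, `Φ y x v`, so `s = v`), so the last
element of `l` is `v`; `u ≠ v`, so `l = u :: (m ++ [v])`.  The new list from `u`: `m ++ [v]`, closed by
`Φ' x v u` (rotation of `u x v`).
`p = y`: the same with `x ↔ y`, `u ↔ v`: from `x`: `l = v :: (m ++ [u])`; new list from `v`: `m ++ [u]`, closed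
by `Φ' y u v` (rotation of `v y u`).
`p = u`: the list from `x`: `Φ u x y`, so `l = y :: l'`; new list from `x`: `v :: y :: l'`: `Φ' u x v`,
`Φ' u v y`; `v` is not a neighbour of `u`.  Other faces `Φ u s t` at `u` do not contain the edge `x y`:
`s t = x y` only for `s = x` (no repetition), `s t = y x` gives `Φ y x u`, `u = v`.
`p = v`: the list from `y`: `Φ v y x`, `l = x :: l'`; new list from `y`: `u :: x :: l'`: `Φ' v y u`,
`Φ' v u x`. -/
def FlbStmt : Prop := ∀ {V : Type} [Fintype V] {E : V → V → Prop} {Φ : V → V → V → Prop}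
  {x y u v : V}, Sph E Φ → Φ x y u → Φ y x v → u ≠ v → ¬ E u v →
  ∀ p q, flE E x y u v p q → Cyc (flE E x y u v) (flF Φ x y u v) p q

/-- **FLH** (medium; uses nothing).  The homology condition after a flip.
PROOF.  `Z` on the edges of `flE ..`, `k = Z u v`.  Let `Y p q = Z p q + k` for the six ordered pairs of
`u x`, `x v`, `v u`, and `Y p q = Z p q` otherwise.  `Y` is symmetric, even (`u, x, v` have two more
edges each, `k + k = 0`), `Y u v = k + k = 0` and `Y x y = Z x y = 0` (`¬ flE .. x y`), so it is supported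
on `E`.  `Sph.hom`: `A`.  `Y x y = 0`: `A x y = A y x =: α`; so `A x y = A y u = A u x = α`,
`A y x = A x v = A v y = α`.  Put `A' u x = A' x v = A' v u = α + k`, `A' v y = A' y u = A' u v = α`,
`A' x y = A' y x = 0`, and `A' = A` otherwise.  Old faces: their directed edges are none of these (`u x`,
`y u` are in the removed face `x y u`; `x v`, `v y` in `y x v`; `u v` is no edge; use `fn`, `rot`).  New
faces: clear.  `Z p q = A' p q + A' q p`: `u x`: `A' u x + A' x u = α + k + A x u = Y u x + k = Z u x`; `x v`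
the same; `v u`: `α + k + α = k = Z v u`; `v y`, `y u`: `A' = A`; `x y`: `0`. -/
def FlhStmt : Prop := ∀ {V : Type} [Fintype V] {E : V → V → Prop} {Φ : V → V → V → Prop}
  {x y u v : V}, Sph E Φ → Φ x y u → Φ y x v → u ≠ v → ¬ E u v →
  ∀ Z : V → V → ZMod 2, (∀ p q, Z p q = Z q p) → (∀ p q, Z p q ≠ 0 → flE E x y u v p q) →
    (∀ p, ∑ q, Z p q = 0) → ∃ A : V → V → ZMod 2,
      (∀ p q r, flF Φ x y u v p q r → A p q = A q r) ∧ ∀ p q, Z p q = A p q + A q p

/-- **FLP** (medium; uses FLB FLH).  The flip.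
PROOF.  `x, y, u, v` are different.  `sym`, `irr`, `rot`: clear.  `fn`: the directed edges of the two new
faces: `v y`, `y u` (in old faces only in `y x v`, `x y u`, which are removed), `u v`, `v u` (no edges of
`E`), `u x`, `x v` (the same).  `fe`: clear.  `con`: `E p q` gives `ReflTransGen E' p q`: `x y` is replaced by
`x u`, `u y`; a vertex with an `E'`-edge has an `E`-edge. -/
def FlpStmt : Prop := ∀ {V : Type} [Fintype V] {E : V → V → Prop} {Φ : V → V → V → Prop}
  {x y u v : V}, Sph E Φ → Φ x y u → Φ y x v → u ≠ v → ¬ E u v →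
  Sph (flE E x y u v) (flF Φ x y u v)

/-! ## Non-facial triangles -/

/-- **COL** (medium; uses nothing).  A non-facial triangle separates the two apexes of its edges.
PROOF.  `x, y, z` are different.  `Z p q = 1` if `p ≠ q` are both in `{x, y, z}`, otherwise `0`: even.
`Sph.hom`: `A`.  For `w ∉ {x, y, z}` all `A w p`, `E w p`, are equal: along the cyclic list at `w`: `Φ w p q`
gives `A w p = A p q = A q w` (`rot`), and `A w q + A q w = Z w q = 0`, so `A w q = A w p`.  Let `χ w = A w p`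
(`choose`, `0` if `w` has no edge).  `E p q`, `p, q ∉ {x, y, z}`: `χ p = A p q`, `χ q = A q p`, the sum is
`Z p q = 0`.  `Φ x y u`: `u ≠ z` (`¬ Φ x y z`), `u ≠ x, y`; `χ u = A u x = A x y`.  In the same way
`Φ y x v` gives `χ v = A y x`, and `A x y + A y x = Z x y = 1`. -/
def ColStmt : Prop := ∀ {V : Type} [Fintype V] {E : V → V → Prop} {Φ : V → V → V → Prop}
  {x y z : V}, Sph E Φ → NF E Φ x y z → ∃ χ : V → ZMod 2,
  (∀ p q, E p q → p ≠ x → p ≠ y → p ≠ z → q ≠ x → q ≠ y → q ≠ z → χ p = χ q) ∧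
    ∀ u v, Φ x y u → Φ y x v → χ u ≠ χ v

/-- **NAD** (easy; uses COL).  PROOF.  `u ≠ z` because `¬ Φ x y z`, `v ≠ z` because `¬ Φ y x z`; `u, v ≠ x, y`
(`fe`, `rot`, `irr`); the rest from `ColStmt`. -/
def NadStmt : Prop := ∀ {V : Type} [Fintype V] {E : V → V → Prop} {Φ : V → V → V → Prop}
  {x y z u v : V}, Sph E Φ → NF E Φ x y z → Φ x y u → Φ y x v →
  u ≠ v ∧ ¬ E u v ∧ (u ≠ x ∧ u ≠ y ∧ u ≠ z) ∧ (v ≠ x ∧ v ≠ y ∧ v ≠ z) ∧
    ∀ w, E w u → E w v → w = x ∨ w = y ∨ w = z

/-- **FLT** (easy-medium; uses nothing).  Non-facial triangles after a flip.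
PROOF.  `x, y, u, v` are different.  Let `p q r` be non-facial after the flip.  If `u` and `v` are among
`p, q, r` let `w` be the third vertex: `w ≠ u, v`, so `E w u`, `E w v`; `w ≠ x` because `u x v` is a face
(`p q r` or `q p r` would be a rotation of `u x v`), `w ≠ y` because `v y u` is a face.  Otherwise the
three edges are old and not `x y`; `x`, `y` are not both in `{p, q, r}` (they would be adjacent after the
flip); a face `Φ p q r` or `Φ q p r` would still be a face. -/
def FltStmt : Prop := ∀ {V : Type} [Fintype V] {E : V → V → Prop} {Φ : V → V → V → Prop}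
  {x y u v : V}, Sph E Φ → Φ x y u → Φ y x v → u ≠ v → ¬ E u v →
  ∀ p q r, NF (flE E x y u v) (flF Φ x y u v) p q r →
    (NF E Φ p q r ∧ ¬ ((x = p ∨ x = q ∨ x = r) ∧ (y = p ∨ y = q ∨ y = r))) ∨
    ∃ w, w ≠ x ∧ w ≠ y ∧ E w u ∧ E w v ∧ ({p, q, r} : Set V) = {u, v, w}

/-- **FLN** (easy-medium; uses nothing).  The converse.
PROOF.  (1) The edges are old and not `x y`; a new face contains `u` and `v`, which are not adjacent in
`E`.  (2) `flE .. u v`, `E v z`, `E z u` (not the edge `x y`); the new faces with the directed edges `u v`,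
`v u` are `u v y` and `v u x`, `z ≠ x, y`; old faces have no edge `u v`. -/
def FlnStmt : Prop := ∀ {V : Type} [Fintype V] {E : V → V → Prop} {Φ : V → V → V → Prop}
  {x y u v : V}, Sph E Φ → Φ x y u → Φ y x v → u ≠ v → ¬ E u v →
  (∀ p q r, NF E Φ p q r → ¬ ((x = p ∨ x = q ∨ x = r) ∧ (y = p ∨ y = q ∨ y = r)) →
    NF (flE E x y u v) (flF Φ x y u v) p q r) ∧
  ∀ z, z ≠ x → z ≠ y → E z u → E z v → NF (flE E x y u v) (flF Φ x y u v) u v z

/-- **CNT** (medium; uses NAD FLT).  The number of bad triangles after a flip.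
PROOF.  `D = (Bd a E Φ).filter (fun t => ¬ (x ∈ t ∧ y ∈ t))`.  `{x, y, z} ∈ Bd a E Φ`, `∉ D`, so
`D.card + 1 ≤ (Bd a E Φ).card`.  By `FltStmt` (with `NadStmt`) every `t = {p, q, r}` in the new `Bd` is in `D`, or
it is `{u, v, w}` with `w` adjacent to `u` and `v`, `w ≠ x, y`, so `w = z` (`NadStmt`), `E z u`, `E z v`, and
`a ≠ u, v` because `a` is not in `{p, q, r}`.  So the new `Bd` is contained in `insert {u, v, z} D`: first
claim; in `D` if the condition fails: second claim.  If `x y z'` is another bad triangle then `{x, y, z}`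
and `{x, y, z'}` are different elements of `Bd a E Φ` outside `D`, so `D.card + 2 ≤ (Bd a E Φ).card`: third
claim. -/
def CntStmt : Prop := ∀ {V : Type} [Fintype V] {E : V → V → Prop} {Φ : V → V → V → Prop}
  {a x y z u v : V}, Sph E Φ → NF E Φ x y z → a ≠ x → a ≠ y → a ≠ z → Φ x y u → Φ y x v →
  (Bd a (flE E x y u v) (flF Φ x y u v)).card ≤ (Bd a E Φ).card ∧
  (¬ (E z u ∧ E z v ∧ a ≠ u ∧ a ≠ v) →
    (Bd a (flE E x y u v) (flF Φ x y u v)).card < (Bd a E Φ).card) ∧
  ∀ z', NF E Φ x y z' → a ≠ z' → z' ≠ z →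
    (Bd a (flE E x y u v) (flF Φ x y u v)).card < (Bd a E Φ).card

/-! ## The minimal triangulation -/

/-- **FOK** (easy-medium; uses FLP NAD FLT).  A flip of an edge outside `G` in a non-facial triangle.
PROOF.  `NadStmt`: `u ≠ v`, `¬ E u v`.  `sph`: `FlpStmt`.  `le`: `p q` is not the edge `x y`.  `rel`: `x`, `y`
are still adjacent to `u`; `u` and `v` have `E`-edges.  `tri`: `FltStmt`: in the first case `Okk.tri`, in the
second case `u`, `v` are both in `{p, q, r}`, so `G u v` or `G v u`, so `E u v`, contradiction. -/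
def FokStmt : Prop := ∀ {V : Type} [Fintype V] {G : V → V → Prop} {R : Set V}
  {E : V → V → Prop} {Φ : V → V → V → Prop} {a x y z u v : V}, (∀ p q, G p q → G q p) →
  Okk G R a E Φ → NF E Φ x y z → ¬ G x y → Φ x y u → Φ y x v →
  Okk G R a (flE E x y u v) (flF Φ x y u v)

/-- **CLA** (easy; uses CNT FOK).
PROOF.  `Sph.ex`: apexes `u`, `v` of `x y` and `y x`.  `FokStmt`: the flip is `Okk`, so by minimality its number
of bad triangles is not smaller; `CntStmt` (second and third claim). -/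
def ClaStmt : Prop := ∀ {V : Type} [Fintype V] {G : V → V → Prop} {R : Set V}
  {E : V → V → Prop} {Φ : V → V → V → Prop} {a x y z : V}, (∀ p q, G p q → G q p) →
  Mnn G R a E Φ → NF E Φ x y z → a ≠ x → a ≠ y → a ≠ z → ¬ G x y →
  (∀ z', NF E Φ x y z' → a ≠ z' → z' = z) ∧ ∀ u, (Φ x y u ∨ Φ y x u) → E z u ∧ a ≠ u

/-- **CLB** (medium; uses NAD FLN CNT FOK CLA).
PROOF.  It suffices to treat `Φ x y u` and to prove the first claim for all `x, y` and both `Φ x y u` and
`Φ y x u` (exchange `x` and `y`, `NF.sw`, `G` symmetric).  So let `u` be one apex of `x y` and `v` the other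
one.  `ClaStmt`: `E z u`, `E z v`, `a ≠ u, v`.  Suppose `NF E Φ x u z` and `G x u`.
Case `¬ G z x`: `NF E Φ z x y`, `NF E Φ z x u` (permutations: `NF.rt`, `NF.sw`), `ClaStmt` for the edge `z x`:
`u = y`, contradiction (`E y u`).
Case `G z x`: `¬ G u z` (`Okk.tri` for `x u z`, `a ≠ x, u, z`).  Let `E', Φ'` be the flip `x y ↦ u v`
(if `Φ y x u`, it is the flip of `y x`: `flE E y x u v`).  It is `Okk` (`FokStmt`) and its number of bad
triangles is `≤` (`CntStmt`, first claim), so it is `Mnn` too.  `FlnStmt`: `NF E' Φ' u v z`, and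
`NF E' Φ' x u z` (`y` is not one of `x, u, z`).  So `z u` is in the two bad triangles `z u v`, `z u x`;
`ClaStmt` for `E', Φ'` and the edge `z u`: `x = v`, contradiction (`E x v`). -/
def ClbStmt : Prop := ∀ {V : Type} [Fintype V] {G : V → V → Prop} {R : Set V}
  {E : V → V → Prop} {Φ : V → V → V → Prop} {a x y z : V}, (∀ p q, G p q → G q p) →
  Mnn G R a E Φ → NF E Φ x y z → a ≠ x → a ≠ y → a ≠ z → ¬ G x y →
  ∀ u, (Φ x y u ∨ Φ y x u) → (NF E Φ x u z → ¬ G x u) ∧ (NF E Φ y u z → ¬ G y u)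

/-- **QPM** (easy; uses CLA CLB).  PROOF.  `sym`: `NF.sw`.  `st`: `ClaStmt`, `ClbStmt` (`a ≠ w` by `ClaStmt`). -/
def QpmStmt : Prop := ∀ {V : Type} [Fintype V] {G : V → V → Prop} {R : Set V}
  {E : V → V → Prop} {Φ : V → V → V → Prop} {a z : V}, (∀ p q, G p q → G q p) →
  Mnn G R a E Φ → a ≠ z → Qp E Φ a z (fun p q => NF E Φ p q z ∧ ¬ G p q ∧ a ≠ p ∧ a ≠ q)

/-- **RCA** (medium; uses nothing).  All neighbours of a vertex `w` with `Q w q` are reached.
PROOF.  `Cyc E Φ w q`: the list `q :: l`, `(q :: (l ++ [q])).IsChain (Φ w)`.  `z` is a neighbour of `w`, `z ≠ q`,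
so `l = l₁ ++ z :: l₂`.  Forward: for `t ∈ q :: l₁`: `R t`: `Q w t` or (`¬ NF E Φ w t z` and `Q w s`, `Φ w s t`
for some `s`).  `R q`.  If `R t` and `Φ w t t'`, `t' ≠ z`, then `R t'`: if `Q w t`: `Qp.st` for the face
`w t t'`: `Q w t'` or `¬ NF E Φ w t' z`, with `s = t`.  If `¬ NF E Φ w t z`, `Q w s`, `Φ w s t`: by `Qp.st`
`E z t`, so `w t z` is a triangle and a face: `Φ w t z` gives `t' = z` (`fn`), contradiction; `Φ t w z` and
`Φ t w s` (rotation of `w s t`) give `s = z`, contradiction to `E s z` (`nf`).  `R t` implies `t ∈ Yz`: if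
`Q w t`: `Q t w`.  Otherwise `Q w s`, `Φ w s t`: if `NF E Φ s t z` then `Q s t` (`st`), `Q t s`; if not: the
second alternative of `Yz` with `p = w`, `q = s`.  Backward: for `t ∈ l₂` in the opposite direction from
`q`: `R' t`: `Q w t` or (`¬ NF E Φ w t z`, `Q w s`, `Φ w t s`); the same with all faces reversed
(`Φ w t s` is `Φ s w t`: the second alternative with `p = s`, `q = w`). -/
def RcaStmt : Prop := ∀ {V : Type} [Fintype V] {E : V → V → Prop} {Φ : V → V → V → Prop}
  {a z : V} {Q : V → V → Prop}, Sph E Φ → Qp E Φ a z Q → ∀ w q t, Q w q → E w t →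
  t = z ∨ t ∈ Yz E Φ z Q

/-- **RCB** (easy-medium; uses nothing).  A vertex of degree three.
PROOF.  `Qp.st`: `E z w`.  `p w z` is a triangle and not `NF`: `Φ p w z` or `Φ w p z`; `Φ w p q` (rotation of
`p q w`) and `Φ w p z` give `q = z`, impossible; so `Φ p w z`, so `Φ w z p`.  `q w z`: `Φ q w p` (rotation)
excludes `Φ q w z` (`p = z`), so `Φ w q z`.  The cyclic list at `w` from `p` is `p, q, z` (`fn`), so `t` is
`p`, `q` or `z`; `Q p q`, `Q q p`. -/
def RcbStmt : Prop := ∀ {V : Type} [Fintype V] {E : V → V → Prop} {Φ : V → V → V → Prop}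
  {a z : V} {Q : V → V → Prop}, Sph E Φ → Qp E Φ a z Q → ∀ p q w t, Q p q → Φ p q w →
  ¬ NF E Φ p w z → ¬ NF E Φ q w z → E w t → t = z ∨ ∃ s, Q t s

/-- **RCH** (easy-medium; uses RCA RCB).  Contradiction.
PROOF.  Let `Q x y`, `Y = Yz E Φ z Q`.  `a ∉ Y` (`nf`, `st`).  If `w ∈ Y`, `E w t` then `t = z` or `t ∈ Y`
(`RcaStmt`, `RcbStmt`).  All neighbours of `z` are in `Y`: along the cyclic list at `z` from `x`:
`Φ z t t'` gives `E t t'` and `t' ≠ z`.  So `Y ∪ {z}` is closed under adjacency; `con` for `x` and `a`: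
`a ∈ Y ∪ {z}`, contradiction. -/
def RchStmt : Prop := ∀ {V : Type} [Fintype V] {E : V → V → Prop} {Φ : V → V → V → Prop}
  {a z : V} {Q : V → V → Prop}, Sph E Φ → Qp E Φ a z Q → a ≠ z → Rel E a → ∀ x y, ¬ Q x y

/-- **AUG** (easy-medium; uses QPM RCH).  The augmentation.
PROOF.  The set of the numbers `(Bd a E Φ).card` with `Okk G R a E Φ` has a smallest element (`Nat.find`,
classical): `Mnn G R a E Φ`.  Suppose `NF E Φ p q r` with `a ≠ p, q, r`.  `Okk.tri`: one of `p q`, `q r`, `r p`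
is not in `G`; after a rotation (`NF.rt`) it is `p q`.  `QpmStmt` (`z = r`), `RchStmt` (`Rel E a` by `rel`):
contradiction. -/
def AugStmt : Prop := ∀ {V : Type} [Fintype V] {G : V → V → Prop} {R : Set V} {a : V}
  {E₀ : V → V → Prop} {Φ₀ : V → V → V → Prop}, (∀ p q, G p q → G q p) → a ∈ R →
  Okk G R a E₀ Φ₀ → ∃ (E : V → V → Prop) (Φ : V → V → V → Prop), Okk G R a E Φ ∧
    ∀ p q r, NF E Φ p q r → a = p ∨ a = q ∨ a = r

/-! ## From and to simple graphs -/

/-- The class of the first graphs: `G` is a subgraph of a maximal planar graph `T`, and every triangle of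
`G` without the vertex `a` does not separate `T`. -/
def ClG {n : ℕ} (G : SimpleGraph (Fin n)) (a : Fin n) : Prop :=
  ∃ T : SimpleGraph (Fin n), MaxPl T ∧ G ≤ T ∧ ∀ x y z, G.Adj x y → G.Adj y z → G.Adj z x →
    a ≠ x → a ≠ y → a ≠ z → (T.induce {v | v ≠ x ∧ v ≠ y ∧ v ≠ z}).Preconnected

/-- the edges of `G` on `Fin n ⊕ Fin 3` -/
def gE {n : ℕ} (G : SimpleGraph (Fin n)) : Fin n ⊕ Fin 3 → Fin n ⊕ Fin 3 → Prop :=
  fun p q => ∃ u v, p = Sum.inl u ∧ q = Sum.inl v ∧ G.Adj u v

/-- **SNF** (medium; uses RLZ = `RlzStmt` (SGD), NTS COL).  The start.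
PROOF.  `RlzStmt`: `NT (inl a') (inl b') [inl a', inl c', inl b'] E F`; `Φ = fF ..`, `NtsStmt`.  `le`, `rel`:
clear (only the `inl v` have edges).  `tri`: let `NF E Φ p q r` with `gE G p q` etc., `p = inl x`, `q = inl y`,
`r = inl z`, `a ≠ x, y, z`.  The graph `T` without `x, y, z` is preconnected, so the function `χ` of
`ColStmt` is constant on the `inl w`, `w ≠ x, y, z` (induction along a walk or `Reachable`); the apexes `u`,
`v` of `x y`, `y x` (`Sph.ex`) have edges, so they are `inl`, and they are not `x, y, z`; `χ u ≠ χ v`,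
contradiction. -/
def SnfStmt : Prop := ∀ {n : ℕ} (G : SimpleGraph (Fin n)) (a : Fin n), 3 ≤ n → ClG G a →
  ∃ (E : Fin n ⊕ Fin 3 → Fin n ⊕ Fin 3 → Prop)
    (Φ : Fin n ⊕ Fin 3 → Fin n ⊕ Fin 3 → Fin n ⊕ Fin 3 → Prop),
    Okk (gE G) (Set.range Sum.inl) (Sum.inl a) E Φ

/-- **AUF** (easy; uses SNF AUG CRN NSG).  The result of part A.
PROOF.  `SnfStmt`, `AugStmt`, `CrnStmt`, `NsgStmt`; vertices with edges are `inl` (`rel`). -/
def AufStmt : Prop := ∀ {n : ℕ} (G : SimpleGraph (Fin n)) (a : Fin n), 3 ≤ n → ClG G a →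
  ∃ (b c : Fin n) (E : Fin n ⊕ Fin 3 → Fin n ⊕ Fin 3 → Prop)
    (F : Fin n ⊕ Fin 3 → Fin n ⊕ Fin 3 → Fin n ⊕ Fin 3 → Prop),
    NT (Sum.inl a) (Sum.inl b) [Sum.inl a, Sum.inl c, Sum.inl b] E F ∧
    (∀ u v, G.Adj u v → E (Sum.inl u) (Sum.inl v)) ∧
    (∀ i x, ¬ E (Sum.inr i) x ∧ ¬ E x (Sum.inr i)) ∧ (∀ v, Rel E (Sum.inl v)) ∧
    NoSep (Sum.inl a) E

/-- **MXT** (easy-medium; uses nothing).  Every planar graph is in a maximal planar graph.
PROOF.  There are finitely many graphs on `Fin n`: take a planar graph `T ≥ G` which is maximal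
(`Set.Finite.exists_le_maximal`, or with the largest number of edges). -/
def MxtStmt : Prop := ∀ {n : ℕ} (G : SimpleGraph (Fin n)), (∃ f, Draw G f) →
  ∃ T, MaxPl T ∧ G ≤ T

/-- **TFR** (easy; uses MXT).  Triangle-free planar graphs are in the class, for every vertex `a`. -/
def TfrStmt : Prop := ∀ {n : ℕ} (G : SimpleGraph (Fin n)), (∃ f, Draw G f) → G.CliqueFree 3 →
  ∀ a, ClG G a

end Pool.Agent.SGL
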