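import Pool.Agent.SGL.Defs
import Pool.Agent.SGL.Alg

/-!
# Squad SGL (MP_41797f_co), part G: geometry, the second graph, the end

Definitions: `SGL/Defs.lean`.  Proved lemmas on crossings: `SGL/Alg.lean` (`sep`, `sepo`, `sepx`,
`same_neg`, `same_pos`, `com`, `xs_swap`, `xs_rev`, `o_rot`, `o_swap`).

Every row: file `Pool/Agent/HelperNN_SGL/XXX.lean`, import `Pool.Agent.SGL.StmtsG`, namespace
`Pool.Agent.SGL.HNN`, theorem `xxx (hypotheses = rows in uses, in this order) : XxxStmt`.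

Notation in the proofs: `M = N + 3`, `H = hh N = M ^ (N + 1)`, `B = bb N = (N + 3) * (H + 2)`,
`x v = ρ v ≤ N + 1`, `y v = B ^ σ (k v) + M ^ (k v)`.  Facts: `1 ≤ M ^ k v ≤ H`; `k u < k v` gives
`M * M ^ (k u) ≤ M ^ (k v)`, `σ (k u) ≤ σ (k v)` and `y u + 1 ≤ y v` (the first by `pow_le_pow_right₀`);
`s u < s v` gives `B * B ^ (s u) ≤ B ^ (s v)`; `|x u - x v| ≤ N + 1`, and `1 ≤ x v - x u` if `ρ u < ρ v`.
-/

noncomputable section

namespace Pool.Agent.SGL

open Pool.Agent.SGE Pool.Agent.SGP Pool.Agent.SGY Pool.Agent.SGD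

/-- the vertices `≠ a` -/
def RR {V : Type} (a : V) (E : V → V → Prop) : Set V := {x | Rel E x ∧ x ≠ a}

/-- LAY: the layout exists (this is the result of part S, file StmtsS). -/
def LayStmt : Prop := ∀ {V : Type} [Fintype V] {a b c : V} {E : V → V → Prop}
  {F : V → V → V → Prop}, NT a b [a, c, b] E F → NoSep a E → ∀ σ : ℕ → ℕ, Monotone σ →
  ∃ k ρ : V → ℕ, Lay a b c E F (Inn a b c E).ncard σ k ρ

/-- RLA: a maximal planar graph is a triangulated triangle with a given corner (this is the result of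
part R, file StmtsR). -/
def RlaStmt : Prop := ∀ {n : ℕ} (T : SimpleGraph (Fin n)) (a : Fin n), 3 ≤ n → MaxPl T →
  Hit T a → ∃ (b c : Fin n) (E : Fin n ⊕ Fin 3 → Fin n ⊕ Fin 3 → Prop)
    (F : Fin n ⊕ Fin 3 → Fin n ⊕ Fin 3 → Fin n ⊕ Fin 3 → Prop),
    NT (Sum.inl a) (Sum.inl b) [Sum.inl a, Sum.inl c, Sum.inl b] E F ∧
    (∀ u v, E (Sum.inl u) (Sum.inl v) ↔ T.Adj u v) ∧
    (∀ i x, ¬ E (Sum.inr i) x ∧ ¬ E x (Sum.inr i)) ∧ (∀ v, Rel E (Sum.inl v)) ∧
    NoSep (Sum.inl a) E

/-! ## Geometry of the first graph -/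

/-- GGP (medium; uses nothing).  General position.
PROOF.  `o` changes only its sign under permutations, so it suffices to treat one order of `x, y, z`.
(1) One of them is `a`: `o (f a) (f q) (f p)` with `k p < k q` is `W (y q - y p) + x q * y p - y q * x p`,
`≥ W - (N + 1) * y q > 0` (`y q ≤ B ^ σ (N + 1) + H`).
(2) `p, q, r ≠ a`, `r` alone in the highest slice (`s p, s q < s r`), `ρ p < ρ q`:
`o (f p) (f q) (f r) = (x q - x p) (y r - y p) - (y q - y p) (x r - x p) > 0`: with `L = B ^ (s r - 1)`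
(`1 ≤ s r`): `y r ≥ B L`, `0 ≤ y p, y q ≤ L + H`, so it is
`≥ (B L - L - H) - (L + H) (N + 1) = L (B - 1 - (N + 1)) - H (N + 2) > 0`.
(3) `p, q` both in the highest slice, `s p = s q > s r`, `ρ p < ρ q`: `|y p - y q| ≤ H`,
`y p - y r ≥ B L - L - H`, `L = B ^ (s p - 1)`, and
`o (f q) (f p) (f r) = (x q - x p) (y p - y r) + (y q - y p) (x r - x p) ≥ (B L - L - H) - H (N + 1) > 0`.
(4) all in one slice, `k r` the largest index, `m = M ^ max (k p) (k q)`, `ρ p < ρ q`:
`(x q - x p) (y r - y p) ≥ M m - m`, `|(y q - y p) (x r - x p)| ≤ m (N + 1)`, `M - 1 - (N + 1) > 0`. -/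
def GgpStmt : Prop := ∀ {V : Type} {a b c : V} {E : V → V → Prop}
  {F : V → V → V → Prop} {N : ℕ} {σ : ℕ → ℕ} {k ρ : V → ℕ}, Monotone σ → Lay a b c E F N σ k ρ →
  ∀ x y z, Rel E x → Rel E y → Rel E z → x ≠ y → x ≠ z → y ≠ z →
    o (co a N σ k ρ x) (co a N σ k ρ y) (co a N σ k ρ z) ≠ 0

/-- GFA (medium; uses nothing).  The faces are positive.
PROOF.  Let `F x y z` (all of them have `Rel E`, they are different: `NT.fe`, `rot`, `irr`).
(1) One of them is `a`: rotate (`o` is invariant under rotation, `NT.rot`) so that it is the second one: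
`F x a z`, `k x < k z` (`fb`), `o (f x) (f a) (f z) = (W - x x) (y z - y x) + y x * (x z - x x)
≥ W - (N + 1) - y x * (N + 1) > 0`.
(2) Otherwise rotate so that `k z` is the largest index (`ki`: different indices).  `fa`: `ρ x < ρ y`.
`o (f x) (f y) (f z) = (x y - x x) (y z - y x) - (y y - y x) (x z - x x)`.
(2a) `s x, s y < s z`: (2) of GGP.  (2b) `s x = s y = s z`: (4) of GGP.
(2c) `s y < s x = s z`: `ρ x < ρ z`, `y y < y x` (`s y < s x` gives `k y < k x`), so both terms are `> 0`.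
(2d) `s x < s y = s z`: `ρ z < ρ y`; `o (f x) (f y) (f z) = o (f y) (f z) (f x)
= (x z - x y) (y x - y y) - (y z - y y) (x x - x y)`: both terms are `> 0`.
(`s x ≤ s z`, `s y ≤ s z` because `σ` is monotone.) -/
def GfaStmt : Prop := ∀ {V : Type} [Fintype V] {a b c : V} {E : V → V → Prop}
  {F : V → V → V → Prop} {N : ℕ} {σ : ℕ → ℕ} {k ρ : V → ℕ}, Monotone σ →
  NT a b [a, c, b] E F → Lay a b c E F N σ k ρ →
  ∀ x y z, F x y z → 0 < o (co a N σ k ρ x) (co a N σ k ρ y) (co a N σ k ρ z)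

/-- GIN (medium; uses nothing).  The outer triangle contains all points.
PROOF.  `a, b, c` have `Rel E` (`H56.contour_nb` in `Helper56_SGP/CTR.lean`) and are different (`NT.nd`).
`o (f c) (f a) (f x) = (W - x c) (y x - y c) + y c * (x x - x c) > 0` for `x ≠ a, c`, `Rel E x`
(`k c = 0 < k x`, so `y x ≥ y c + 1`; `ρ c < ρ x`).  With `x = b`: `tri` (rotate).
`o (f a) (f b) (f x) = (x b - W) (y x - 0) - (y b - 0) (x x - W) = W (y b - y x) + x b * y x - y b * x x
≥ W - (N + 1) y b > 0` for `x` with `k x < k b`.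
`o (f b) (f c) (f x) > 0`, `x` inner: `ρ c < ρ b < ρ x` (`rc`, `rb`), `k c, k x < k b`:
`= o (f c) (f x) (f b) = (x x - x c) (y b - y c) - (y x - y c) (x b - x c)`, and
`x b - x c < x x - x c` (both are integers `≥ 1`), `0 ≤ y x - y c < y b - y c`: positive. -/
def GinStmt : Prop := ∀ {V : Type} [Fintype V] {a b c : V} {E : V → V → Prop}
  {F : V → V → V → Prop} {N : ℕ} {σ : ℕ → ℕ} {k ρ : V → ℕ}, Monotone σ →
  NT a b [a, c, b] E F → Lay a b c E F N σ k ρ →
  0 < o (co a N σ k ρ a) (co a N σ k ρ b) (co a N σ k ρ c) ∧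
  ∀ x ∈ Inn a b c E, 0 < o (co a N σ k ρ a) (co a N σ k ρ b) (co a N σ k ρ x) ∧
    0 < o (co a N σ k ρ b) (co a N σ k ρ c) (co a N σ k ρ x) ∧
    0 < o (co a N σ k ρ c) (co a N σ k ρ a) (co a N σ k ρ x)

/-- GDL (medium; uses nothing).  The slices.
PROOF.  `xx`: clear; `xa`: `ρ p ≤ N + 1 < W`.  `ra`: `s p < s q` gives `k p < k q` (`σ` monotone), (1) of
GGP.  `dn`: (3) of GGP.  `up`: `s r > s p = s q`, (2) of GGP.  `rc`: `s p < s q`, `p ≠ c`: `k c = 0`, so
`s c ≤ s p < s q` and `ρ c < ρ p`: (2) of GGP for `c, p, q`. -/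
def GdlStmt : Prop := ∀ {V : Type} {a b c : V} {E : V → V → Prop}
  {F : V → V → V → Prop} {N : ℕ} {σ : ℕ → ℕ} {k ρ : V → ℕ}, Monotone σ → Lay a b c E F N σ k ρ →
  Rel E c → c ≠ a → GdL a c (RR a E) (fun x => σ (k x)) ρ (co a N σ k ρ)

/-! ## The second graph does not cross itself -/

/-- NXA (medium; uses nothing).  Edges inside the slices and between consecutive slices.
PROOF.  Common ends: `com`.  In all cases use `o_rot`, `o_swap`; `ρ` is injective on `R` (hypothesis).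
(hh, hh) `p q`, `r s`: same slice: by `hn` the intervals have no common inner point, so (no common end)
`ρ q < ρ r` or `ρ s < ρ p`: `sepx` with `xx` (and `xs_swap`).  Different slices: `r, s` both above
(`up`) or both below (`dn`) the line `p q`: `same_pos`, `same_neg`.
(hh, uu) `p q` in the slice `i`, `r ∈` slice `j`, `s'` in the slice `j + 1`: `i < j` or `i > j + 1`: as before.
`i = j`: `r ≠ p, q`, so by `hn` `ρ r < ρ p` or `ρ q < ρ r`: `o r s' p` and `o r s' q` have the same sign: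
for `ρ r < ρ p`: `up` for `r, p` and `s'`: `0 < o r p s'`, so `o r s' p < 0`, the same for `q`; for
`ρ q < ρ r`: `0 < o p r s' = o r s' p`.  `i = j + 1`: the same with `dn` and `s'` instead of `r`.
(uu, uu) `p ∈ i`, `q ∈ i + 1`, `r ∈ j`, `s' ∈ j + 1`.  By `xs_swap` assume `i ≤ j`.
`i = j`: `ρ p < ρ r` (or conversely), then `ρ q ≤ ρ s'` (`SMon`), `q ≠ s'`, so `ρ q < ρ s'`:
`0 < o p r s' = o r s' p` (`up`) and `0 < o s' q r = o r s' q` (`dn`): both ends of the first edge are on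
the same side of the second one.
`j = i + 1`: `q ≠ r` are in the same slice, `p` below, `s'` above.  If `ρ q < ρ r`: `o q r p < 0`
(`dn`: `0 < o r q p`), `0 < o q r s'` (`up`): `sepo` with the line `q r` (`o q r q = o q r r = 0`).  If
`ρ r < ρ q`: the line `r q` in the same way.
`i + 2 ≤ j`: `sepo` with the line `a r` (or `r a`): `0 < o a r p`, `0 < o a r q` (`ra`), `o a r r = 0`,
`0 < o a s' r`, so `o a r s' < 0`. -/
def NxaStmt : Prop := ∀ {V : Type} (a c : V) (R : Set V) (s ρ : V → ℕ) (S : V → V → Prop)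
  (f : V → ℝ × ℝ), GdL a c R s ρ f → (∀ p ∈ R, ∀ q ∈ R, ρ p = ρ q → p = q) → SMon s ρ S →
  ∀ p q r t : V, p ∈ R → q ∈ R → r ∈ R → t ∈ R →
    ((s p = s q ∧ ρ p < ρ q ∧ ∀ x ∈ R, s x = s p → ¬ (ρ p < ρ x ∧ ρ x < ρ q)) ∨
      (s q = s p + 1 ∧ S p q)) →
    ((s r = s t ∧ ρ r < ρ t ∧ ∀ x ∈ R, s x = s r → ¬ (ρ r < ρ x ∧ ρ x < ρ t)) ∨
      (s t = s r + 1 ∧ S r t)) → ¬ Xs (f p) (f q) (f r) (f t)

/-- NXB (medium; uses nothing).  Edges from `c`: `q` is the first point of its slice, `s c < s q`; the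
edge `r t` is inside a slice (consecutive points) or goes to the next slice.
PROOF.  If `c` or `q` is an end of `r t`: `com`.  Otherwise: a point `x ∈ R`, `x ≠ c`, with `s x < s q` has
`o c q x < 0` (`rc`: `0 < o c x q`); a point `x ≠ q` with `s x = s q` has `ρ q < ρ x` and `o c q x < 0` (`dn`
for `q, x` and `c`: `0 < o x q c`, so `o q x c < 0`, so `o c q x < 0`); a point with `s q < s x` has
`0 < o c q x` (`rc`, `q ≠ c`).  So `same_neg` or `same_pos`, except in the case `s r = s q`, `s t = s q + 1`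
(or `t` and `r` exchanged; the edge goes up).  In this case `ρ q < ρ r`, the line `q r`: `c` is below:
`0 < o r q c` (`dn`), so `o q r c < 0`; `0 < o q r t` (`up`): `sepo` for the segments `c q` and `r t` with
the line `q r`. -/
def NxbStmt : Prop := ∀ {V : Type} (a c : V) (R : Set V) (s ρ : V → ℕ)
  (f : V → ℝ × ℝ), GdL a c R s ρ f → (∀ p ∈ R, ∀ q ∈ R, ρ p = ρ q → p = q) →
  ∀ q r t : V, c ∈ R → q ∈ R → r ∈ R → t ∈ R → s c < s q → (∀ x ∈ R, s x = s q → ρ q ≤ ρ x) →
    ((s r = s t ∧ ρ r < ρ t) ∨ s t = s r + 1) → ¬ Xs (f c) (f q) (f r) (f t)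

/-- NXC (medium; uses nothing).  Edges to `a`: `p` is the last point of its slice; `r t` is inside a slice,
or goes to the next slice, or `r = c` and `t` is the first point of a slice.
PROOF.  If `p` is an end of `r t`: `com`.  `x ∈ R` with `s x < s p`: `0 < o a p x` (`ra`), so
`o p a x < 0`; with `s p < s x`: `0 < o p a x` (`ra`: `0 < o a x p = o p a x`).  A point `x ≠ p` with
`s x = s p` has `ρ x < ρ p`.
(1) `s r, s t < s p` or `s r, s t > s p`: `same_neg`, `same_pos`.
(2) `s r = s t = s p`: `ρ r, ρ t < ρ p`: `sepx` for `r t` and `p a` (`xx`, `xa`), `xs_swap`.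
(3) `s r < s t = s p`: `ρ t < ρ p`: `o r t p < 0` (`dn` for `t, p` and `r`: `0 < o p t r`, so `o t p r < 0`,
`o r t p < 0`) and `o r t a < 0` (`ra`: `0 < o a t r`, so `o a r t < 0`, `o r t a < 0`): both ends of `p a`
are on the same side of `r t`.
(4) `s r = s p < s t`: `ρ r < ρ p`: `0 < o r p t` (`up`), so `o r t p < 0`, and `o r t a < 0` as before.
(5) `s r < s p < s t`: then `r = c` and `t` is the first point of its slice (the edge does not go to the
next slice), `p ≠ c`: `0 < o c p t` (`rc`), so `o c t p < 0`; `o c t a < 0` as in (3). -/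
def NxcStmt : Prop := ∀ {V : Type} (a c : V) (R : Set V) (s ρ : V → ℕ)
  (f : V → ℝ × ℝ), GdL a c R s ρ f → (∀ p ∈ R, ∀ q ∈ R, ρ p = ρ q → p = q) →
  ∀ p r t : V, p ∈ R → r ∈ R → t ∈ R → (∀ x ∈ R, s x = s p → ρ x ≤ ρ p) →
    ((s r = s t ∧ ρ r < ρ t) ∨ s t = s r + 1 ∨ (r = c ∧ s c < s t)) →
    ¬ Xs (f p) (f a) (f r) (f t)

/-- NXV (easy; uses NXA NXB NXC).  No two edges cross.
PROOF.  Cases for both edges (`LE`), `xs_swap` for the symmetric ones; (cc, cc) and (aa, aa) have a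
common end (`com`); (aa, cc) is the last alternative of NXC. -/
def NxvStmt : Prop := ∀ {V : Type} (a c : V) (R : Set V) (s ρ : V → ℕ) (S : V → V → Prop)
  (f : V → ℝ × ℝ), GdL a c R s ρ f → (∀ p ∈ R, ∀ q ∈ R, ρ p = ρ q → p = q) → SMon s ρ S →
  ∀ p q r t : V, LE a c R s ρ S p q → LE a c R s ρ S r t → ¬ Xs (f p) (f q) (f r) (f t)

/-- NXL (medium; uses NXV).  The second graph: `ψ` maps `t` to `a`, the other vertices onto `R`, levels to
slices, positions to columns, the first vertex of the lowest level to `c`.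
PROOF.  `S p q := ∃ u v, u ≠ t ∧ v ≠ t ∧ G.Adj u v ∧ lev v = lev u + 1 ∧ ψ u = p ∧ ψ v = q`.  `ρ` is
injective on `R`?  (hypothesis).  For `u, v ≠ t` of the same level: `pos u < pos v` iff
`ρ (ψ u) < ρ (ψ v)` (`Lvl.inj`, order).  `SMon`: `Lvl.mono` (`ψ` is injective on the vertices `≠ t`: same
level, and different positions give different columns).  Every edge `G.Adj u v` gives
`LE (ψ u) (ψ v)` or `LE (ψ v) (ψ u)`: `v = t`: `aa` by `last` (all points of `R` are values of `ψ`); `u = t`: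
the same.  `u, v ≠ t`: by symmetry `lev u ≤ lev v`; `Lvl.edge`: first case: `hh`, for `pos u < pos v` or
`pos v < pos u` (`inj`, `u ≠ v`); second case: `uu`; third case: `ψ u = c` (hypothesis on `c`), and if
`lev u < lev v`: `cc`; if `lev u = lev v`: `u` and `v` are both first of this level, so `u = v` (`inj`):
impossible.  Then NXV with `xs_rev`, `xs_swap`. -/
def NxlStmt : Prop := ∀ {V W : Type} (G : SimpleGraph W) (t : W) (lev pos : W → ℕ) (a c : V)
  (R : Set V) (s ρ : V → ℕ) (f : V → ℝ × ℝ) (ψ : W → V), Lvl G t lev pos → GdL a c R s ρ f →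
  (∀ p ∈ R, ∀ q ∈ R, ρ p = ρ q → p = q) → c ∈ R → ψ t = a →
  (∀ w, w ≠ t → ψ w ∈ R ∧ s (ψ w) = lev w) → (∀ r ∈ R, ∃ w, w ≠ t ∧ ψ w = r) →
  (∀ w w', w ≠ t → w' ≠ t → lev w = lev w' → pos w < pos w' → ρ (ψ w) < ρ (ψ w')) →
  (∀ w, w ≠ t → (∀ w', w' ≠ t → lev w ≤ lev w' ∧ (lev w' = lev w → pos w ≤ pos w')) → ψ w = c) →
  ∀ x y z w, G.Adj x y → G.Adj z w → ¬ Xs (f (ψ x)) (f (ψ y)) (f (ψ z)) (f (ψ w))

/-! ## Combinatorics of the second graph -/

/-- PIG (easy-medium; uses nothing).  Some level has a last vertex which can be moved to the pole.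
PROOF.  For a level `i` which is not empty let `r i` be its last vertex.  `U i`: `r i` has a neighbour
`z ≠ r (i+1)` of level `i + 1`; `D i`: `r i` has a neighbour of level `i - 1` which is not the last vertex of
its level.  `U i` and `D (i+1)` do not hold both: `y ~ r (i+1)`, `y ≠ r i`, `r i ~ z`, `z ≠ r (i+1)`: `mono` for
`y, r (i+1), r i, z` gives `pos (r (i+1)) ≤ pos z`, contradiction.  Let `i` be the largest nonempty level
with `¬ D i` (the lowest nonempty level has this property).  If `U i` then the level `i + 1` is not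
empty and `¬ D (i+1)`: contradiction.  So `¬ U i` and `¬ D i`; `t = r i`.  `Lvl`: `inj`, `mono` clear, `edge`
clear (first two cases).  `last`: `G.Adj u t`: same level: `pos u < pos t` (`t` is last, `inj`), and a
`w ≠ t` of this level with `pos u < pos w` has `pos w < pos t`: contradiction to `WLev.edge`.  Other
levels: `¬ U i`, `¬ D i`. -/
def PigStmt : Prop := ∀ {n : ℕ} (G : SimpleGraph (Fin n)) (lev pos : Fin n → ℕ), 1 ≤ n →
  WLev G lev pos → ∃ t, Lvl G t lev pos

/-- SIG (easy-medium; uses nothing).  The slices have the sizes of the levels.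
PROOF.  `A = {w | w ≠ t}`, `card A = n - 1`.  Sort `A` by `lev` (for example the list `A.toList` mapped by
`lev` and sorted: `List.mergeSort` or `Multiset.sort (A.val.map lev)`), `σ j` = the entry number `j` for
`j < n - 1`, the last entry (or `0` if `n = 1`) for `n - 1 ≤ j`. -/
def SigStmt : Prop := ∀ {n : ℕ} (t : Fin n) (lev : Fin n → ℕ), ∃ σ : ℕ → ℕ, Monotone σ ∧
  ∀ i, ((Finset.range (n - 1)).filter fun j => σ j = i).card =
    (Finset.univ.filter fun w : Fin n => w ≠ t ∧ lev w = i).card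

/-- MAT (easy-medium; uses nothing).  Matching of levels and slices.
PROOF.  `rA x = card {x' | l x' = l x, p x' < p x}`, the same `rB` for `B`.  Inside a level `rA` is a
bijection onto `{0, ..., m - 1}`, `m` the size of the level, and increasing in `p` (for each `i` take
`Finset.orderIsoOfFin` of the image of `p` on the level, or: `x ↦ (l x, rA x)` is injective, its image is
`{(i, j) | j < card of the level i}`; the same for `B`, the images are equal).  `e` = the
composition. -/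
def MatStmt : Prop := ∀ {A B : Type} [Finite A] [Finite B] (l p : A → ℕ) (s r : B → ℕ),
  (∀ x y, l x = l y → p x = p y → x = y) → (∀ x y, s x = s y → r x = r y → x = y) →
  (∀ i, Nat.card {x // l x = i} = Nat.card {y // s y = i}) →
  ∃ e : A ≃ B, (∀ x, s (e x) = l x) ∧ ∀ x y, l x = l y → p x < p y → r (e x) < r (e y)

/-- SML (easy; uses nothing).  At most two vertices.
PROOF.  `f i = (i, 0)`; there is at most one edge and the ends of an edge are all vertices. -/
def SmlStmt : Prop := ∀ (n : ℕ) (G : SimpleGraph (Fin n)), n ≤ 2 →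
  Draw G (fun i => ((i : ℝ), (0 : ℝ)))

/-! ## The end -/

/-- FNL (medium; uses LAY RLA GGP GFA GIN GDL NXL SIG MAT SML and the rows of SGE, SGP, SGY, SGD:
`FplStmt` `DrwStmt` `GnzStmt`, see `Helper59_SGD/Asm.lean` for their names).  The theorem.
PROOF.  `n ≤ 2`: SML, `P` the image.  `n ≥ 3`: RLA: `b, c, E, F`; `Rel E x` iff `x` is some `inl v`.
`N = (Inn ..).ncard = n - 3` (all `inl v` except `a, b, c`, which are different).  SIG for `t`, `lev`: `σ`.
LAY: `k, ρ`.  `R = RR (inl a) E`, `s x = σ (k x)`; `k` is a bijection from `R` onto `range (n - 1)`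
(injective by `ki`, values `≤ N + 1 = n - 2`, `R` has `n - 1` elements), so the slices have the sizes of the
levels.  MAT for `A = {w // w ≠ t}` (`l = lev`, `p = pos`, `Lvl.inj`) and `B = R` (`s`, `ρ`, `ri`): `e`;
`ψ t = inl a`, `ψ w = e w` otherwise.  `f = co (inl a) N σ k ρ`.  `GdT`: GGP, GIN, GFA.  `GdL`: GDL.  `P` =
the image of `f ∘ inl`, `card = n` (injective: `gp` and a third vertex, `n ≥ 3`).  `G₁`: `f ∘ inl`,
`FplStmt`, `GnzStmt`, `DrwStmt`.  `G₂`: `f ∘ ψ` (`ψ` is injective with `Rel` values, so in the range of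
`inl`), NXL, `GnzStmt`, `DrwStmt`.  The condition on `c`: `w₀` with `ψ w₀ = c` (`e` is onto); `k c = 0`, so
`s c ≤ s x` for all `x`, and `ρ c ≤ ρ x`: `w₀` is first in the lowest level; a second vertex with this
property is equal to it by `inj`. -/
def FnlStmt : Prop := ∀ (n : ℕ) (G₁ G₂ T : SimpleGraph (Fin n)) (a : Fin n), MaxPl T → Hit T a →
  G₁ ≤ T → ∀ (t : Fin n) (lev pos : Fin n → ℕ), Lvl G₂ t lev pos →
  ∃ P : Finset (ℝ × ℝ), P.card = n ∧ (∃ f, Draw G₁ f ∧ ∀ u, f u ∈ P) ∧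
    ∃ f, Draw G₂ f ∧ ∀ u, f u ∈ P

/-- TT2 (medium; uses RLA and the rows of `Helper59_SGD/Asm.lean`).  The theorem of squad SGD (two-track
graphs) for `Hit` instead of `NoSepTri`.
PROOF.  Copy the proof of `Pool.Agent.SGD.FinStmt` (Helper59_SGD) with RLA instead of RLZ and NSP. -/
def Tt2Stmt : Prop := ∀ (n : ℕ) (G₁ G₂ T : SimpleGraph (Fin n)) (a : Fin n), MaxPl T → Hit T a →
  G₁ ≤ T → ∀ (c : Fin n) (X : Set (Fin n)) (r : Fin n → ℕ), TwoTrack G₂ c X r →
  ∃ P : Finset (ℝ × ℝ), P.card = n ∧ (∃ f, Draw G₁ f ∧ ∀ u, f u ∈ P) ∧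
    ∃ f, Draw G₂ f ∧ ∀ u, f u ∈ P

end Pool.Agent.SGL
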