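import Pool.Agent.SGD.Stmts

/-!
# Squad SGL (MP_41797f_co), re-rooting (helper2)

A triangulated triangle `NT a b [a, c, b] E F` has the outer face `a c b`.  With the outer face all
directed edges have a face, and any other face may be taken as the outer face.
-/

noncomputable section

namespace Pool.Agent.SGL

open Pool.Agent.SGE Pool.Agent.SGP Pool.Agent.SGY Pool.Agent.SGD

/-- no separating triangle without the vertex `a` -/
def NoSepTriAt {V : Type} (T : SimpleGraph V) (a : V) : Prop :=
  ∀ x y z, T.Adj x y → T.Adj y z → T.Adj z x → a ≠ x → a ≠ y → a ≠ z →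
    (T.induce {v | v ≠ x ∧ v ≠ y ∧ v ≠ z}).Preconnected

/-- all faces, with the outer face `a c b` -/
def fF {V : Type} (a b c : V) (F : V → V → V → Prop) : V → V → V → Prop := addF F a c b

/-- the faces without the face `x y z` -/
def dF {V : Type} (F : V → V → V → Prop) (x y z : V) : V → V → V → Prop :=
  fun u v w => F u v w ∧ ¬ ((u = x ∧ v = y) ∨ (u = y ∧ v = z) ∨ (u = z ∧ v = x))

/-- FCY: with the outer face the neighbours of every vertex form a cycle.
PROOF.  `z ∉ [a, c, b]`: `NT.int`.  A corner: the list of `Fan` is closed by the outer face; a cyclic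
list may be started at any of its elements. -/
def FcyStmt : Prop := ∀ {V : Type} [Fintype V] {a b c : V} {E : V → V → Prop}
  {F : V → V → V → Prop}, NT a b [a, c, b] E F → ∀ z v, E z v → Cyc E (fF a b c F) z v

/-- RFC: re-rooting at a face `x y z`: it is the new outer face.
PROOF.  `fn`, `fe`, `rot` of `fF` (`Bn2Stmt`: the edges `a c`, `c b`, `b a` have no face in `F`).
`bd`: the list of `FcyStmt` at `x` from `y` is `z :: l'`, and `z :: (l' ++ [y])` is the new fan.
`int`: `FcyStmt`, the removed face contains only `x`, `y`, `z`.  `hom`: let `A` be the function of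
`NT.hom` and `k = A x y`; the new function is `A u v + k` if `u v` has a face in `fF`, `A u v` otherwise
(an edge has a face in `fF` on both sides, `BndStmt`; `k + k = 0`).  `con`: `E` is symmetric. -/
def RfcStmt : Prop := ∀ {V : Type} [Fintype V] {a b c : V} {E : V → V → Prop}
  {F : V → V → V → Prop}, NT a b [a, c, b] E F → ∀ x y z, F x y z →
  NT x z [x, y, z] E (dF (fF a b c F) x y z)

/-- RER: every vertex can be made the corner `a`.
PROOF.  `E v w`; `FcyStmt`: a face of `fF` with `v`.  If it is in `F`: `RfcStmt`.  Otherwise `v` is a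
corner: `RotStmt`. -/
def RerStmt : Prop := ∀ {V : Type} [Fintype V] {a b c : V} {E : V → V → Prop}
  {F : V → V → V → Prop}, NT a b [a, c, b] E F → ∀ v, Rel E v →
  ∃ (b' c' : V) (F' : V → V → V → Prop), NT v b' [v, c', b'] E F'

/-- RLA: a maximal planar graph is a triangulated triangle, with a given corner `a`.
PROOF.  `RlzStmt` and `RerStmt`; the other corners have neighbours, so they are `inl`. -/
def Rla0Stmt : Prop := ∀ {n : ℕ} (T : SimpleGraph (Fin n)), 3 ≤ n → MaxPl T → ∀ a : Fin n,
  ∃ (b c : Fin n) (E : Fin n ⊕ Fin 3 → Fin n ⊕ Fin 3 → Prop)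
    (F : Fin n ⊕ Fin 3 → Fin n ⊕ Fin 3 → Fin n ⊕ Fin 3 → Prop),
    NT (Sum.inl a) (Sum.inl b) [Sum.inl a, Sum.inl c, Sum.inl b] E F ∧
    (∀ u v, E (Sum.inl u) (Sum.inl v) ↔ T.Adj u v) ∧
    (∀ i x, ¬ E (Sum.inr i) x ∧ ¬ E x (Sum.inr i)) ∧ ∀ v, Rel E (Sum.inl v)

/-- NSA: the condition on separating triangles.  PROOF.  As `NspStmt`. -/
def NsaStmt : Prop := ∀ {n : ℕ} (T : SimpleGraph (Fin n)) (a : Fin n)
  (E : Fin n ⊕ Fin 3 → Fin n ⊕ Fin 3 → Prop), (∀ u v, E (Sum.inl u) (Sum.inl v) ↔ T.Adj u v) →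
  (∀ i x, ¬ E (Sum.inr i) x ∧ ¬ E x (Sum.inr i)) → NoSepTriAt T a → NoSep (Sum.inl a) E

end Pool.Agent.SGL
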