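import Pool.Agent.SGL.DefsU

/-!
# Squad SGL (MP_41797f_co), upgrade U: statements

Definitions: `SGL/DefsU.lean`, `SGL/Defs.lean`; proved lemmas on crossings: `SGL/Alg.lean` (`sep`, `sepo`,
`sepx`, `same_neg`, `same_pos`, `com`, `xs_swap`, `xs_rev`, `o_rot`, `o_swap`).

Every row: file `Pool/Agent/HelperNN_SGL/XXX.lean`, import `Pool.Agent.SGL.StmtsU`, namespace
`Pool.Agent.SGL.HNN`, theorem `xxx (hypotheses = rows in uses, in this order) : XxxStmt`.
-/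

noncomputable section

namespace Pool.Agent.SGL

open Pool.Agent.SGE Pool.Agent.SGP Pool.Agent.SGY Pool.Agent.SGD Filter

/-! ## Interfaces (proved by the rows of StmtsX and StmtsE) -/

/-- XOU: the x-coordinates with a start (rows of helper79, StmtsX). -/
def XouStmt : Prop := ∀ {V : Type} [Fintype V] {a b c : V} {E : V → V → Prop}
  {F : V → V → V → Prop} {N : ℕ} {v : ℕ → V} {C₁ C S : ℕ → List V},
  Run a b c E F N v C₁ C S → Pat N v S → ∀ σ : ℕ → ℕ, Monotone σ → ∀ j₀, j₀ ≤ N →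
  ∀ x₀ : V → ℝ, (∀ i j, i ≤ j₀ → j ≤ j₀ → x₀ (v i) = x₀ (v j) → i = j) →
  (∀ i, 1 ≤ i → i ≤ j₀ → x₀ (v 0) < x₀ (v i)) →
  (C j₀).dropLast.Pairwise (fun u w => x₀ u < x₀ w) →
  ∃ x : V → ℝ, (∀ i, i ≤ j₀ → x (v i) = x₀ (v i)) ∧
    (∀ i j, i ≤ N + 1 → j ≤ N + 1 → x (v i) = x (v j) → i = j) ∧
    (∀ i, 1 ≤ i → i ≤ N + 1 → x (v 0) < x (v i)) ∧
    (∀ j, j₀ ≤ j → j ≤ N → (C j).dropLast.Pairwise fun u w => x u < x w) ∧
    ∀ j, j₀ ≤ j → j ≤ N → Xg a v S σ x j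

/-- ENB: the bottom slice (rows of helper90, StmtsE). -/
def EnbStmt : Prop := ∀ {V : Type} [Fintype V] {a b c : V} {E : V → V → Prop}
  {F : V → V → V → Prop} {K : Set V} {C₁ C₂ : List V}, Stt a b c E F K C₁ C₂ → ∀ D : ℕ → ℕ,
  ∃ (x y : V → ℝ) (π : ℕ → V), EndB a c F K K.ncard D x y π

/-- ENT: the top slice (rows of helper90, StmtsE). -/
def EntStmt : Prop := ∀ {V : Type} [Fintype V] {a b c : V} {E : V → V → Prop}
  {F : V → V → V → Prop} {K : Set V} {C₁ C₂ : List V}, Stt a b c E F K C₁ C₂ → ∀ D : ℕ → ℕ,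
  ∃ (x y : V → ℝ) (π : ℕ → V), EndT a b F (Inn a b c E \ K) (Inn a b c E \ K).ncard D x y π

/-! ## Geometry: from the plan to the points -/

/-- EVB (easy-medium; uses nothing).  The leading power of `B` wins.
PROOF.  For `B ≥ 1`: `B ^ m, B ^ l, 1 ≤ B ^ (n - 1)`, so the sum is at least
`B ^ (n - 1) * (α * B - |β| - |γ| - |δ|)`, positive for `B > (|β| + |γ| + |δ|) / α`. -/
def EvbStmt : Prop := ∀ (α β γ δ : ℝ) (l m n : ℕ), 0 < α → l < n → m < n →
  ∀ᶠ B : ℝ in atTop, 0 < α * B ^ n + β * B ^ m + γ * B ^ l + δ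

/-- PSG (medium; uses EVB).  The signs for three points of slices, for large `B`.
PROOF.  Write `P u = (x u, B ^ s u + y u)`.
(1) `s u < s w`, `s v < s w`, `x u < x v`: `o (P u) (P v) (P w) = (x v - x u) (B ^ s w + y w - B ^ s u - y u)
- (B ^ s v + y v - B ^ s u - y u) (x w - x u)`: leading term `(x v - x u) * B ^ s w`: EVB with
`α = x v - x u`, `β = -(x w - x u)` (power `s v`), `γ = -(x v - x u) + (x w - x u)` (power `s u`).
(2) `s u < s v = s w`, `x w < x v`: `o (P u) (P v) (P w) = o (P v) (P w) (P u)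
= (x w - x v) (B ^ s u + y u - B ^ s v - y v) - (y w - y v) (x u - x v)`: leading term
`(x v - x w) * B ^ s v`. -/
def PsgStmt : Prop := ∀ {V : Type} (s : V → ℕ) (x y : V → ℝ),
  (∀ u v w, s u < s w → s v < s w → x u < x v → ∀ᶠ B : ℝ in atTop,
    0 < o (x u, B ^ s u + y u) (x v, B ^ s v + y v) (x w, B ^ s w + y w)) ∧
  ∀ u v w, s u < s v → s v = s w → x w < x v → ∀ᶠ B : ℝ in atTop,
    0 < o (x u, B ^ s u + y u) (x v, B ^ s v + y v) (x w, B ^ s w + y w)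

/-- PSA (easy-medium; uses nothing).  The signs with the point `a`: `u` is lower than `w` (slice, or
height inside the same slice).
PROOF.  For `B ≥ 1` large the height of `w` is larger than that of `u`: same slice: clear; `s u < s w`:
`B ^ s w - B ^ s u ≥ B ^ s u * (B - 1)` tends to infinity (`B ^ s u ≥ 1`).  Let `d > 0` be the difference
of the heights `h w - h u`: `o (x u, h u) (W, 0) (x w, h w) = (W - x u) * d + h u * (x w - x u)`, positive
for large `W`. -/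
def PsaStmt : Prop := ∀ {V : Type} (s : V → ℕ) (x y : V → ℝ) (u w : V),
  (s u < s w ∨ (s u = s w ∧ y u < y w)) → ∀ᶠ B : ℝ in atTop, ∀ᶠ W : ℝ in atTop,
    0 < o (x u, B ^ s u + y u) (W, 0) (x w, B ^ s w + y w)

/-- PGP (medium; uses PSG PSA).  General position.
PROOF.  Finitely many triples (`Filter.eventually_all`, `V` is finite), so fix one.  `o` changes only its
sign under permutations.  With `a`: PSA for `u, w` in one of the two orders (`s u ≠ s w`, or `yd`).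
Without `a`: all in one slice: `o (cu ..) = o (pv ..)` (`B ^ s` cancels), `gp`.  One of them (`w`) in a
higher slice than the two others: (1) of PSG, `x u ≠ x v` (`xd`).  Two of them (`v, w`) in the highest
slice: (2) of PSG, `x v ≠ x w`. -/
def PgpStmt : Prop := ∀ {V : Type} [Fintype V] {a b c : V} {E : V → V → Prop}
  {F : V → V → V → Prop} {h : ℕ} {s : V → ℕ} {x y : V → ℝ}, Plan a b c E F h s x y →
  ∀ᶠ B : ℝ in atTop, ∀ᶠ W : ℝ in atTop, ∀ u v w, Rel E u → Rel E v → Rel E w → u ≠ v → u ≠ w →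
    v ≠ w → o (cu a s x y B W u) (cu a s x y B W v) (cu a s x y B W w) ≠ 0

/-- PFC (medium; uses PSG PSA).  The faces are positive.
PROOF.  Finitely many triples; `F u v w` (all `Rel E`, different).  One of them is `a`: rotate to
`F u a w`: `fa` and PSA.  Otherwise rotate (`NT.rot`, `o_rot`): all in one slice: `f3`; `w` alone in the
highest slice: `f1` and (1) of PSG; `v, w` in the highest slice, `u` lower: `f2` and (2) of PSG. -/
def PfcStmt : Prop := ∀ {V : Type} [Fintype V] {a b c : V} {E : V → V → Prop}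
  {F : V → V → V → Prop} {h : ℕ} {s : V → ℕ} {x y : V → ℝ}, NT a b [a, c, b] E F →
  Plan a b c E F h s x y → ∀ᶠ B : ℝ in atTop, ∀ᶠ W : ℝ in atTop, ∀ u v w, F u v w →
    0 < o (cu a s x y B W u) (cu a s x y B W v) (cu a s x y B W w)

/-- PIN (medium; uses PSG PSA).  The outer triangle contains all points (`1 ≤ h`).
PROOF.  `a, b, c` have `Rel E` (`H56.contour_nb`) and are different.  `o (f c) (f a) (f v) > 0`: PSA for
`c, v` (`s c = 0 < s v`, or `s v = 0` and `cy`); with `v = b`: `tri`.  `o (f a) (f b) (f v)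
= o (f v) (f a) (f b) > 0`: PSA for `v, b` (`s v < h = s b`, or `by_`).  `o (f b) (f c) (f v)
= o (f c) (f v) (f b) > 0`: if `s v < h`: (1) of PSG for `c, v, b` (`s c = 0 < h`, `cx`); if `s v = h`: (2) of
PSG for `c, v, b`: `s c < s v = s b`, `x b < x v` (`bx`). -/
def PinStmt : Prop := ∀ {V : Type} [Fintype V] {a b c : V} {E : V → V → Prop}
  {F : V → V → V → Prop} {h : ℕ} {s : V → ℕ} {x y : V → ℝ}, NT a b [a, c, b] E F → 1 ≤ h →
  Plan a b c E F h s x y → ∀ᶠ B : ℝ in atTop, ∀ᶠ W : ℝ in atTop,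
  0 < o (cu a s x y B W a) (cu a s x y B W b) (cu a s x y B W c) ∧
  ∀ v ∈ Inn a b c E, 0 < o (cu a s x y B W a) (cu a s x y B W b) (cu a s x y B W v) ∧
    0 < o (cu a s x y B W b) (cu a s x y B W c) (cu a s x y B W v) ∧
    0 < o (cu a s x y B W c) (cu a s x y B W a) (cu a s x y B W v)

/-- PDL (medium; uses PSG PSA).  The slices.
PROOF.  `V` is finite.  `xx`: clear.  `xa`: large `W`.  `ra`: `0 < o (f a) (f q) (f p) = o (f p) (f a) (f q)`: PSA
for `p, q`.  `dn`: `s r < s p = s q`, `x p < x q`: `o (f q) (f p) (f r) = o (f r) (f q) (f p)`: (2) of PSG for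
`u = r, v = q, w = p`.  `up`: `s p = s q < s r`: (1) of PSG.  `rc`: `p ≠ c`, `s p < s q`: `s c = 0 < s q`,
`x c < x p` (`cx`, `s p < s q ≤ h`): (1) of PSG for `c, p, q`. -/
def PdlStmt : Prop := ∀ {V : Type} [Fintype V] {a b c : V} {E : V → V → Prop}
  {F : V → V → V → Prop} {h : ℕ} {s : V → ℕ} {x y : V → ℝ} {ρ : V → ℕ}, Rel E c → c ≠ a →
  Plan a b c E F h s x y → (∀ p ∈ RR a E, ∀ q ∈ RR a E, ρ p < ρ q → x p < x q) →
  ∀ᶠ B : ℝ in atTop, ∀ᶠ W : ℝ in atTop, GdL a c (RR a E) s ρ (cu a s x y B W)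

/-- PTP (easy-medium; uses PSA PGP PFC PIN PDL).  The points.
PROOF.  `Filter.Eventually.and` of the statements (and PSA for all `p, r` of one slice), then
`Eventually.exists` twice. -/
def PtpStmt : Prop := ∀ {V : Type} [Fintype V] {a b c : V} {E : V → V → Prop}
  {F : V → V → V → Prop} {h : ℕ} {s : V → ℕ} {x y : V → ℝ} {ρ : V → ℕ},
  NT a b [a, c, b] E F → 1 ≤ h → Plan a b c E F h s x y →
  (∀ p ∈ RR a E, ∀ q ∈ RR a E, ρ p < ρ q → x p < x q) →
  ∃ B W : ℝ, GdT a b c E F (cu a s x y B W) ∧ GdL a c (RR a E) s ρ (cu a s x y B W) ∧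
    ∀ p ∈ RR a E, ∀ r ∈ RR a E, s p = s r → y p < y r →
      0 < o (cu a s x y B W p) (cu a s x y B W a) (cu a s x y B W r)

/-! ## The plan -/

/-- BCI (easy-medium; uses BND BN2 = `BndStmt`, `Bn2Stmt` of SGD).  The contour of the bottom slice is increasing.
PROOF.  Let `Con C₂ u w`, `u, w ≠ a` (so `u, w ∈ K ∪ {c}`: `contour_nb` for `h.n2`).  `Bn2Stmt` for `h.n2`:
`E u w` and no face `onF F _ u w z`.  There is a face `F u w z` (compare (2) of `BtpStmt`, StmtsS, file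
`Helper71_SGL/BTP.lean`): otherwise `Con [a, c, b] u w` or `u = b, w = a` (`BndStmt`), impossible
(`u, w ≠ a`, `b ∉ K ∪ {a, c}`).  So `z ∉ K ∪ {a, c}` and `x u < x w` (`EndB.f2`).  `C₂.dropLast` contains
neither `a` (`C₂` has no repetition and its last element is `a`), so it is a chain for
`fun u w => x u < x w`, which is transitive (`List.isChain_iff_pairwise`). -/
def BciStmt : Prop := ∀ {V : Type} [Fintype V] {a b c : V} {E : V → V → Prop}
  {F : V → V → V → Prop} {K : Set V} {C₁ C₂ : List V}, Stt a b c E F K C₁ C₂ →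
  ∀ (k : ℕ) (D : ℕ → ℕ) (x y : V → ℝ) (π : ℕ → V), EndB a c F K k D x y π →
  C₂.dropLast.Pairwise (fun u w => x u < x w)

/-- MSI (easy-medium; uses nothing).  Super-increasing heights.
PROOF.  `δ` = the smallest distance, `Δ` = the largest distance of two of the numbers `x i`, `i ≤ n`;
`M ≥ 2`, `δ (M - 1) > Δ`.  For `i, j < l`, `x i < x j`: with `m = M ^ max i j`, `M ^ l ≥ M m`:
`(x j - x i) (M ^ l - M ^ i) ≥ δ (M m - m)` and `|(M ^ j - M ^ i) (x l - x i)| ≤ m Δ`. -/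
def MsiStmt : Prop := ∀ (n : ℕ) (x : ℕ → ℝ), (∀ i j, i ≤ n → j ≤ n → x i = x j → i = j) →
  ∃ M : ℝ, 1 < M ∧ ∀ i j l, i < l → j < l → l ≤ n → x i < x j →
    0 < o (x i, M ^ i) (x j, M ^ j) (x l, M ^ l)

/-- PLN (medium-strong; uses BND MSI; `BndStmt` of SGD).  The plan: the bottom slice from `EndB`, the
middle slices from the x-coordinates of the sweep, the top slice from `EndT`.
PROOF.  Every `u ∈ RR a E` is `v i` for exactly one `i ≤ N + 1` (`i = 0`: `c`; `i = N + 1`: `b`; otherwise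
`u ∈ Inn = Kl v N`); `k u = i`; `s u = σ (k u)`.  `M` from MSI for `x (v i)`, `i ≤ N + 1`.
`τ` is a number such that `x₁ u + τ ≠ x (v i)` for all `u` and `i` (finitely many exceptions).
`x' u = x u` and `y' u = y₀ u` if `k u ≤ j₀`; `x' u = x u`, `y' u = M ^ k u` if `j₀ < k u ≤ m₁`;
`x' u = x₁ u + τ`, `y' u = y₁ u` if `m₁ < k u` (then `u ∈ (Inn \ Kl v m₁) ∪ {b}`).  On `Kl v j₀ ∪ {c}`:
`x' = x = x₀`.
`sc`, `sb`, `sl`: `hσ`.  Two vertices of one slice are both in the bottom part (`k ≤ j₀`), both in the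
middle or both in the top part.  `xd`: injectivity of `x`, choice of `τ`, and `x₁` is injective on the top
slice (`EndT.xd`, `xb`, `psu`).  `yd`: `EndB.yd`, `M ^ i`, `EndT.yd`.  `gp`: `EndB.gp`; middle: MSI (order
the three indices; the largest is `l`; `o` changes only its sign); `EndT.gp` (a shift of `x` does not
change `o`).
Faces `F u w z` without `a`.  Rotate so that `k z` is the largest index, `k z = j + 1`, `j ≤ N`;
`u, w ∈ Kl v j ∪ {c}`; `Run.fc`: `Con (S j) u w`.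
`f3` (one slice): bottom: `EndB.f3`; middle: `Xg.up` for `j` (`j₀ ≤ j`): `x u < x w`, MSI; top: `EndT.f3`.
`f1` (`z` in the highest slice alone, in the statement `w`): if `z` is in the middle: `Xg.up`; if `z` is in
the top part: `u, w ∈ Kl v m₁ ∪ {c}` and `z ∉ Kl v m₁ ∪ {a, c}`: there is no face
`onF F (Kl v m₁ ∪ {a, c}) u w _` (`NT.fn`), so `BndStmt` for `(st m₁).n2` gives `Con (C m₁) u w`
(`u = a` is impossible), so `x u < x w` (`hC`, `Pairwise` of `dropLast`; `u, w ≠ a`).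
`f2` (`u` lower, `v, w` in one slice): middle: if `w` is the latest: `Con (S j) u v`, `Xg.hi`; if `v` is
the latest: rotate to `F w u v`: `Con (S j) w u`, `Xg.lo` (`σ (k w) = σ (j + 1)`, `σ (k u) < σ (j + 1)`):
`x w < x v`; top: `EndT.f2`; bottom: impossible.
`fa`: `F u a w`: `k u < k w` as in the proof of `RksStmt` (field `fb`), so `s u ≤ s w`; if equal: bottom:
`EndB.fa`; middle: `M ^ k u < M ^ k w`; top: `EndT.fa`.
`cx`: bottom and middle: `hx0`.  `cy`: `EndB.yc`.  `bx`, `by_`: `EndT.xb`, `yb` (`s v = h` means `m₁ < k v`,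
because `σ i < h` for `i ≤ m₁`). -/
def PlnStmt : Prop := ∀ {V : Type} [Fintype V] {a b c : V} {E : V → V → Prop}
  {F : V → V → V → Prop} {N : ℕ} {v : ℕ → V} {C₁ C S : ℕ → List V},
  Run a b c E F N v C₁ C S → ∀ (σ : ℕ → ℕ) (h j₀ m₁ : ℕ), Monotone σ → 1 ≤ h → j₀ ≤ m₁ → m₁ ≤ N →
  (∀ i, i ≤ j₀ → σ i = 0) → (∀ i, j₀ < i → i ≤ m₁ → 0 < σ i ∧ σ i < h) →
  (∀ i, m₁ < i → i ≤ N + 1 → σ i = h) →
  ∀ (k₀ k₁ : ℕ) (D₀ D₁ : ℕ → ℕ) (x₀ y₀ x₁ y₁ : V → ℝ) (π₀ π₁ : ℕ → V),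
  EndB a c F (Kl v j₀) k₀ D₀ x₀ y₀ π₀ → EndT a b F (Inn a b c E \ Kl v m₁) k₁ D₁ x₁ y₁ π₁ →
  ∀ x : V → ℝ, (∀ i, i ≤ j₀ → x (v i) = x₀ (v i)) →
  (∀ i j, i ≤ N + 1 → j ≤ N + 1 → x (v i) = x (v j) → i = j) →
  (∀ i, 1 ≤ i → i ≤ N + 1 → x (v 0) < x (v i)) →
  (∀ j, j₀ ≤ j → j ≤ N → (C j).dropLast.Pairwise fun u w => x u < x w) →
  (∀ j, j₀ ≤ j → j ≤ N → Xg a v S σ x j) →
  ∃ (s : V → ℕ) (x' y' : V → ℝ) (τ : ℝ), (∀ i, i ≤ N + 1 → s (v i) = σ i) ∧
    Plan a b c E F h s x' y' ∧ (∀ u ∈ Kl v j₀ ∪ {c}, x' u = x₀ u ∧ y' u = y₀ u) ∧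
    ∀ u ∈ (Inn a b c E \ Kl v m₁) ∪ {b}, x' u = x₁ u + τ ∧ y' u = y₁ u

/-! ## The edges of the second graph -/

/-- EBL (medium; uses nothing).  The edges of the bottom slice: `A p q` = an edge of depth `D` between the
positions `i < j`, `p` at `j`, `q` at `i`.
PROOF.  All positions `1, ..., k + 1` are in `K ∪ {c} = {v ∈ R | s v = 0}` (hypothesis `hK`), position `0` is
`a`; `x` is decreasing in the position (`xd`, `xc`), so `ρ` too (`hρ`).  `l`, `r`: clear.  `m`: `z` is at a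
position `l` (`psu`), `i < l < j`.  If `1 ≤ i`: `lo`; `o (f p) (f q) (f z) = o (pv ..)` because all are in
the slice `0` (`hf`).  If `i = 0` (`q = a`): `l0` and the hypothesis `ha`.  `n`: `p` at `j`, `q` at `i`, `p'` at
`j'`, `q'` at `i'`: `j' < j`, and `i < j'`; claim `i ≤ i'` or `i = 0`: if `i' < i`: `Ed k D i' j'` at `i` gives
(`1 ≤ i`, `j' ≤ k` because `j' < j ≤ k + 1`) `D j' < D i`; `Ed k D i j` at `j'` gives `D i < D j'`:
contradiction.  `i ≤ i'` gives `q' ≠ a` (if `i' ≠ 0`) and `ρ q' ≤ ρ q`. -/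
def EblStmt : Prop := ∀ {V : Type} {a c : V} {F : V → V → V → Prop} {K R : Set V} {k : ℕ}
  {D : ℕ → ℕ} {x y : V → ℝ} {π : ℕ → V} {s ρ : V → ℕ} {f : V → ℝ × ℝ},
  EndB a c F K k D x y π → a ∉ R → (∀ v, v ∈ K ∪ {c} ↔ v ∈ R ∧ s v = 0) →
  (∀ p ∈ K ∪ {c}, ∀ q ∈ K ∪ {c}, ρ p < ρ q ↔ x p < x q) →
  (∀ p ∈ K ∪ {c}, ∀ q ∈ K ∪ {c}, ∀ r ∈ K ∪ {c},
    o (f p) (f q) (f r) = o (pv x y p) (pv x y q) (pv x y r)) →
  (∀ p ∈ K ∪ {c}, ∀ r ∈ K ∪ {c}, y p < y r → 0 < o (f p) (f a) (f r)) →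
  ArcL a R s ρ f (fun p q => ∃ i j, i < j ∧ j ≤ k + 1 ∧ Ed k D i j ∧ p = ps c a k π j ∧
    q = ps c a k π i)

/-- EBH (medium; uses nothing).  The edges of the top slice: `p` at the position `i`, `q` at `j`, `i < j`.
PROOF.  As EBL: positions `0, ..., k` are `U ∪ {b}`, position `k + 1` is `a`, `x` increasing.  `m`: `z` at `l`,
`i < l < j`: `j ≤ k`: `hi`: `0 < o (f q) (f p) (f z)`, so `o (f p) (f q) (f z) < 0`; `j = k + 1`: `h0` and the
hypothesis on `a`: `0 < o (f z) (f a) (f p)`, so `o (f p) (f a) (f z) < 0`.  `n`: `i < i' < j`; if `j < j'`: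
`Ed k D i j` at `i'`: `D j < D i'` (`j ≤ k`), `Ed k D i' j'` at `j`: `D i' < D j` (`1 ≤ i'`):
contradiction. -/
def EbhStmt : Prop := ∀ {V : Type} {a b : V} {F : V → V → V → Prop} {U R : Set V} {k h : ℕ}
  {D : ℕ → ℕ} {x y : V → ℝ} {π : ℕ → V} {s ρ : V → ℕ} {f : V → ℝ × ℝ},
  EndT a b F U k D x y π → a ∉ R → (∀ v, v ∈ U ∪ {b} ↔ v ∈ R ∧ s v = h) →
  (∀ p ∈ U ∪ {b}, ∀ q ∈ U ∪ {b}, ρ p < ρ q ↔ x p < x q) →
  (∀ p ∈ U ∪ {b}, ∀ q ∈ U ∪ {b}, ∀ r ∈ U ∪ {b},
    o (f p) (f q) (f r) = o (pv x y p) (pv x y q) (pv x y r)) →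
  (∀ p ∈ U ∪ {b}, ∀ r ∈ U ∪ {b}, y p < y r → 0 < o (f p) (f a) (f r)) →
  ArcH a R h s ρ f (fun p q => ∃ i j, i < j ∧ j ≤ k + 1 ∧ Ed k D i j ∧ p = ps a b k π i ∧
    q = ps a b k π j)

/-- NYA (medium; uses nothing).  A lower edge `p q` and an edge `r t` inside a slice (consecutive) or to the
next slice.
PROOF.  Common end: `com`.  A point `z ∈ R` with `0 < s z` is above: `0 < o p q z` (`q ≠ a`: `up` for
`p, q, z`; `q = a`: `ra` for `p, z`: `0 < o a z p = o p a z`); a point of the slice `0` between `p` and `q`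
too (`m`).  So if both `r, t` are such points: `same_pos`.
Both in the slice `0`, consecutive: `p`, `q` are not strictly between them, so (no common end) both are
between `p` and `q`, or both are left of `p` (`sepx`; `xx`, for `q = a`: `xa`), or (`q ≠ a`) both right of `q`
(`sepx`, `xs_swap`).
`s r = 0`, `s t = 1`, `r` left of `p` (`ρ r < ρ p`): `o r t p < 0` (`up`: `0 < o r p t`), `o r t q < 0` (the same
if `q ≠ a`; `q = a`: `ra`: `0 < o a t r`, so `o r t a < 0`): `same_neg`, `xs_swap`.  `r` right of `q ≠ a`: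
`0 < o p r t = o r t p`, `0 < o q r t = o r t q` (`up`): `same_pos`. -/
def NyaStmt : Prop := ∀ {V : Type} (a c : V) (R : Set V) (s ρ : V → ℕ) (A : V → V → Prop)
  (f : V → ℝ × ℝ), GdL a c R s ρ f → (∀ p ∈ R, ∀ q ∈ R, ρ p = ρ q → p = q) →
  ArcL a R s ρ f A → ∀ p q r t : V, A p q → r ∈ R → t ∈ R →
    ((s r = s t ∧ ρ r < ρ t ∧ ∀ x ∈ R, s x = s r → ¬ (ρ r < ρ x ∧ ρ x < ρ t)) ∨ s t = s r + 1) →
    ¬ Xs (f p) (f q) (f r) (f t)

/-- NYB (easy-medium; uses nothing).  A lower edge `p q` and an edge from `c` upwards, or to `a`.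
PROOF.  Common end: `com`.  (1) `r = c`, `s c < s t`: `p ≠ c`, `s p = 0 < s t`: `o c t p < 0` (`rc`:
`0 < o c p t`), `o c t q < 0` (the same, or `q = a`: `ra`: `0 < o a t c`, so `o c t a < 0`): `same_neg`,
`xs_swap`.  (2) `t = a`, `r` the last point of its slice, `q ≠ a`: `0 < s r`: `0 < o a r p`, so `o r a p < 0`,
the same for `q` (`ra`): `same_neg`, `xs_swap`.  `s r = 0`: `ρ p, ρ q < ρ r` (no common end): `sepx` (`xx`,
`xa`). -/
def NybStmt : Prop := ∀ {V : Type} (a c : V) (R : Set V) (s ρ : V → ℕ) (A : V → V → Prop)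
  (f : V → ℝ × ℝ), GdL a c R s ρ f → (∀ p ∈ R, ∀ q ∈ R, ρ p = ρ q → p = q) →
  ArcL a R s ρ f A → ∀ p q r t : V, A p q → r ∈ R →
    ((r = c ∧ t ∈ R ∧ s c < s t) ∨ (t = a ∧ ∀ x ∈ R, s x = s r → ρ x ≤ ρ r)) →
    ¬ Xs (f p) (f q) (f r) (f t)

/-- NYC (medium; uses nothing).  An upper edge `p q` (slice `h`, the highest) and an edge `r t` inside a
slice (consecutive) or to the next slice.
PROOF.  As NYA.  Points `z` of lower slices are below: `o p q z < 0` (`q ≠ a`: `dn`: `0 < o q p z`;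
`q = a`: `ra` for `z, p`: `0 < o a p z`, so `o p a z < 0`), points of the slice `h` between `p` and `q` too.
Both in the slice `h`: as in NYA with `same_neg`.  `s t = h`, `s r + 1 = h`, `t` left of `p`:
`0 < o p t r` (`dn` for `t, p`), so `o r t p = - o r p t = - o p t r < 0`, `o r t q < 0` (the same, or
`q = a`: `ra` for `r, t`: `0 < o a t r`, so `o r t a < 0`): `same_neg`.  `t` right of `q ≠ a`: `0 < o t p r`
(`dn` for `p, t`), so `0 < o r t p`, the same for `q`: `same_pos`. -/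
def NycStmt : Prop := ∀ {V : Type} (a c : V) (R : Set V) (h : ℕ) (s ρ : V → ℕ)
  (A : V → V → Prop) (f : V → ℝ × ℝ), GdL a c R s ρ f →
  (∀ p ∈ R, ∀ q ∈ R, ρ p = ρ q → p = q) → (∀ p ∈ R, s p ≤ h) →
  ArcH a R h s ρ f A → ∀ p q r t : V, A p q → r ∈ R → t ∈ R →
    ((s r = s t ∧ ρ r < ρ t ∧ ∀ x ∈ R, s x = s r → ¬ (ρ r < ρ x ∧ ρ x < ρ t)) ∨ s t = s r + 1) →
    ¬ Xs (f p) (f q) (f r) (f t)

/-- NYD (easy-medium; uses nothing).  An upper edge `p q` and an edge from `c` to the first point `t` of a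
slice, or from the last point `r` of a slice to `a`.
PROOF.  Common end: `com`.  (1) `r = c`: `s c < s t ≤ h`: `c` is below the line `p q`.  `s t < h`: `t` too:
`same_neg` (signs as in NYC).  `s t = h`: `t` is the first point, `ρ t < ρ p`, `ρ t < ρ q` (if `q ≠ a`):
`o c t p < 0` (`dn` for `t, p` and `c`: `0 < o p t c`), `o c t q < 0` (the same, or `ra`): `same_neg`,
`xs_swap`.  (2) `t = a`, `q ≠ a`: `s r < h`: `0 < o r a p`, `0 < o r a q` (`ra`: `0 < o a p r = o r a p`):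
`same_pos`, `xs_swap`.  `s r = h`: `ρ p, ρ q < ρ r`: `sepx`. -/
def NydStmt : Prop := ∀ {V : Type} (a c : V) (R : Set V) (h : ℕ) (s ρ : V → ℕ)
  (A : V → V → Prop) (f : V → ℝ × ℝ), GdL a c R s ρ f →
  (∀ p ∈ R, ∀ q ∈ R, ρ p = ρ q → p = q) → (∀ p ∈ R, s p ≤ h) →
  ArcH a R h s ρ f A → ∀ p q r t : V, A p q → r ∈ R →
    ((r = c ∧ t ∈ R ∧ s c < s t ∧ ∀ x ∈ R, s x = s t → ρ t ≤ ρ x) ∨
      (t = a ∧ ∀ x ∈ R, s x = s r → ρ x ≤ ρ r)) →
    ¬ Xs (f p) (f q) (f r) (f t)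

/-- NYE (easy-medium; uses nothing).  Two lower edges; two upper edges; a lower and an upper edge.
PROOF.  Two lower edges `p q`, `r t`, no common end (`com`); by `xs_swap` assume `ρ p < ρ r` (`ρ p = ρ r`
gives `p = r`).  If `q = a` or `ρ r < ρ q`: `n` gives `q = a` (then `t ≠ a`) or `t ≠ a`, `ρ t ≤ ρ q`; in
both cases `r` and `t` are between `p` and `q`: `same_pos` (`m`).  If `q ≠ a` and `ρ q ≤ ρ r`
(`ρ q < ρ r`): `sepx` (`xx`, `xa`).  Two upper edges: the same with `same_neg`.  A lower edge `p q` and an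
upper edge `r t`, `0 < h`: not both `q = a` and `t = a` (common end).  `t ≠ a`: `r, t` are above the line
`p q` (as in NYA): `same_pos`.  `t = a`, `q ≠ a`: `p, q` are below the line `r a` (`ra`: `0 < o a r p`, so
`o r a p < 0`): `same_neg`, `xs_swap`. -/
def NyeStmt : Prop := ∀ {V : Type} (a c : V) (R : Set V) (h : ℕ) (s ρ : V → ℕ)
  (A A' : V → V → Prop) (f : V → ℝ × ℝ), GdL a c R s ρ f →
  (∀ p ∈ R, ∀ q ∈ R, ρ p = ρ q → p = q) → 1 ≤ h → ArcL a R s ρ f A → ArcH a R h s ρ f A' →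
  (∀ p q r t : V, A p q → A r t → ¬ Xs (f p) (f q) (f r) (f t)) ∧
  (∀ p q r t : V, A' p q → A' r t → ¬ Xs (f p) (f q) (f r) (f t)) ∧
  ∀ p q r t : V, A p q → A' r t → ¬ Xs (f p) (f q) (f r) (f t)

/-- NYV (easy; uses NXV NYA NYB NYC NYD NYE).  No two edges cross. -/
def NyvStmt : Prop := ∀ {V : Type} (a c : V) (R : Set V) (h : ℕ) (s ρ : V → ℕ)
  (S A A' : V → V → Prop) (f : V → ℝ × ℝ), GdL a c R s ρ f →
  (∀ p ∈ R, ∀ q ∈ R, ρ p = ρ q → p = q) → SMon s ρ S → 1 ≤ h → (∀ p ∈ R, s p ≤ h) →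
  ArcL a R s ρ f A → ArcH a R h s ρ f A' →
  ∀ p q r t : V, (LE a c R s ρ S p q ∨ A p q ∨ A' p q) → (LE a c R s ρ S r t ∨ A r t ∨ A' r t) →
    ¬ Xs (f p) (f q) (f r) (f t)

/-- NXU (medium; uses NYV).  The second graph (as NXL, file of helper16).
PROOF.  `S` as in NXL.  Every edge `G.Adj u v` gives `LE`, `A` or `A'` for `ψ u, ψ v` or `ψ v, ψ u`.
`v = t` (or `u = t`, symmetric): `lev u = 0`: `hA`; `lev u = h`: `hA'`; otherwise `aa` (`last`).  `u, v ≠ t`,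
`lev u = lev v`, by symmetry `pos u < pos v`: level `0`: `hA`, level `h`: `hA'`, otherwise `hh` (`path`).
`lev u < lev v` (by symmetry): `next`: `uu`, or `u` is the first vertex of level `0`: `ψ u = c` and `cc`. -/
def NxuStmt : Prop := ∀ {V W : Type} (G : SimpleGraph W) (t : W) (h : ℕ) (lev pos : W → ℕ)
  (a c : V) (R : Set V) (s ρ : V → ℕ) (A A' : V → V → Prop) (f : V → ℝ × ℝ) (ψ : W → V),
  LvU G t h lev pos → 1 ≤ h → GdL a c R s ρ f → ArcL a R s ρ f A → ArcH a R h s ρ f A' →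
  (∀ p ∈ R, ∀ q ∈ R, ρ p = ρ q → p = q) → c ∈ R → ψ t = a →
  (∀ w, w ≠ t → ψ w ∈ R ∧ s (ψ w) = lev w) → (∀ r ∈ R, ∃ w, w ≠ t ∧ ψ w = r) →
  (∀ w w', w ≠ t → w' ≠ t → lev w = lev w' → pos w < pos w' → ρ (ψ w) < ρ (ψ w')) →
  (∀ w, w ≠ t → lev w = 0 → (∀ w', w' ≠ t → lev w' = 0 → pos w ≤ pos w') → ψ w = c) →
  (∀ u v, G.Adj u v → u ≠ t → lev u = 0 → (v = t ∨ (lev v = 0 ∧ pos u < pos v)) →
    A (ψ u) (ψ v)) →
  (∀ u v, G.Adj u v → u ≠ t → lev u = h → (v = t ∨ (lev v = h ∧ pos u < pos v)) →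
    A' (ψ u) (ψ v)) →
  ∀ x y z w, G.Adj x y → G.Adj z w → ¬ Xs (f (ψ x)) (f (ψ y)) (f (ψ z)) (f (ψ w))

/-! ## Levels, positions, depths -/

open Classical in
/-- position of a vertex of the level `0` (from the last one, `1`, to the first one); `t` is at `0` -/
def ib {n : ℕ} (t : Fin n) (lev pos : Fin n → ℕ) (w : Fin n) : ℕ :=
  if w = t then 0 else (Finset.univ.filter fun w' => w' ≠ t ∧ lev w' = 0 ∧ pos w ≤ pos w').card

open Classical in
/-- position of a vertex of the level `h` (from the first one, `0`); `t` is at `k + 1` -/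
def ih {n : ℕ} (t : Fin n) (k h : ℕ) (lev pos : Fin n → ℕ) (w : Fin n) : ℕ :=
  if w = t then k + 1 else
    (Finset.univ.filter fun w' => w' ≠ t ∧ lev w' = h ∧ pos w' < pos w).card

/-- ARL (easy-medium; uses DP2 = `Dp2Stmt` of SGD).  Depths for the edges of the level `0`.
PROOF.  `ib` is injective on the level `0` and `t`, decreasing in `pos`, values in `1, ..., k + 1`.
`R i j := ∃ u v, ib v = i ∧ ib u = j ∧ G.Adj u v ∧ u ≠ t ∧ lev u = 0 ∧ (v = t ∨ (lev v = 0 ∧ pos u < pos v))`.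
`Dp2Stmt`: `i < j < l < m`, `R i l`, `R j m`: four vertices with the positions `m, l, j, i` (increasing in
`pos`, the last one may be `t`): contradiction to `one` for the level `0` (`p = ib⁻¹ m`, `q = ib⁻¹ l`,
`r = ib⁻¹ j`, `s = ib⁻¹ i`: `G.Adj p r`, `G.Adj q s`). -/
def ArlStmt : Prop := ∀ {n : ℕ} (G : SimpleGraph (Fin n)) (t : Fin n) (h : ℕ)
  (lev pos : Fin n → ℕ) (k : ℕ), LvU G t h lev pos →
  (Finset.univ.filter fun w : Fin n => w ≠ t ∧ lev w = 0).card = k + 1 →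
  ∃ D : ℕ → ℕ, ∀ u v, G.Adj u v → u ≠ t → lev u = 0 → (v = t ∨ (lev v = 0 ∧ pos u < pos v)) →
    ib t lev pos v < ib t lev pos u ∧ ib t lev pos u ≤ k + 1 ∧
      Ed k D (ib t lev pos v) (ib t lev pos u)

/-- ARH (easy-medium; uses DP2).  Depths for the edges of the level `h`.
PROOF.  As ARL; `ih` is increasing in `pos`, values `0, ..., k`, `t` at `k + 1`. -/
def ArhStmt : Prop := ∀ {n : ℕ} (G : SimpleGraph (Fin n)) (t : Fin n) (h : ℕ)
  (lev pos : Fin n → ℕ) (k : ℕ), LvU G t h lev pos →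
  (Finset.univ.filter fun w : Fin n => w ≠ t ∧ lev w = h).card = k + 1 →
  ∃ D : ℕ → ℕ, ∀ u v, G.Adj u v → u ≠ t → lev u = h → (v = t ∨ (lev v = h ∧ pos u < pos v)) →
    ih t k h lev pos u < ih t k h lev pos v ∧ ih t k h lev pos v ≤ k + 1 ∧
      Ed k D (ih t k h lev pos u) (ih t k h lev pos v)

/-- PSI (easy-medium; uses nothing).  A matching of the levels with the slices respects the positions.
PROOF.  First claim: `g i = ps c a k π i`, `1 ≤ i ≤ k + 1`, are the points of `X₀` in decreasing order of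
`ρ`; `ψ` maps the level `0` bijectively onto `X₀`, increasing.  So `ψ w` has the same number of points of
`X₀` with `ρ` at least `ρ (ψ w)` as `w` has vertices with `pos` at least `pos w`: this number is `ib w` for
`w`, and it is `i` for `g i`.  Second claim: the same with the numbers of smaller elements. -/
def PsiStmt : Prop := ∀ {V : Type} {n : ℕ} (t : Fin n) (h k k' : ℕ) (lev pos : Fin n → ℕ)
  (ρ : V → ℕ) (ψ : Fin n → V) (g g' : ℕ → V),
  (∀ u v, u ≠ t → v ≠ t → lev u = lev v → pos u = pos v → u = v) →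
  (∀ u v, u ≠ t → v ≠ t → lev u = lev v → pos u < pos v → ρ (ψ u) < ρ (ψ v)) →
  (∀ i, 1 ≤ i → i ≤ k + 1 → ∃ w, w ≠ t ∧ lev w = 0 ∧ ψ w = g i) →
  (∀ w, w ≠ t → lev w = 0 → ∃ i, 1 ≤ i ∧ i ≤ k + 1 ∧ g i = ψ w) →
  (∀ i j, 1 ≤ i → i < j → j ≤ k + 1 → ρ (g j) < ρ (g i)) →
  (∀ i, i ≤ k' → ∃ w, w ≠ t ∧ lev w = h ∧ ψ w = g' i) →
  (∀ w, w ≠ t → lev w = h → ∃ i, i ≤ k' ∧ g' i = ψ w) →
  (∀ i j, i < j → j ≤ k' → ρ (g' i) < ρ (g' j)) →
  (∀ w, w ≠ t → lev w = 0 → ψ w = g (ib t lev pos w)) ∧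
    ∀ w, w ≠ t → lev w = h → ψ w = g' (ih t k' h lev pos w)

/-- SIU (easy-medium; uses nothing).  The indices of the end slices.
PROOF.  `σ` is monotone, its values on `range (n - 1)` are `lev w`, `w ≠ t` (with multiplicities), so they
are between `0` and `h`; `σ i = 0` for exactly the first `card (level 0) = j₀ + 1` indices, `σ i = h` for
exactly the last `card (level h)` indices of `range (n - 1)` (a monotone function takes its smallest
value on an initial part, its largest on a final part). -/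
def SiuStmt : Prop := ∀ {n : ℕ} (t : Fin n) (h j₀ k₁ : ℕ) (lev : Fin n → ℕ) (σ : ℕ → ℕ),
  1 ≤ h → Monotone σ → (∀ v, v ≠ t → lev v ≤ h) →
  (∀ i, ((Finset.range (n - 1)).filter fun j => σ j = i).card =
    (Finset.univ.filter fun w : Fin n => w ≠ t ∧ lev w = i).card) →
  (Finset.univ.filter fun w : Fin n => w ≠ t ∧ lev w = 0).card = j₀ + 1 →
  (Finset.univ.filter fun w : Fin n => w ≠ t ∧ lev w = h).card = k₁ + 1 →
  j₀ + k₁ + 3 ≤ n ∧ (∀ i, i ≤ j₀ → σ i = 0) ∧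
    (∀ i, j₀ < i → i + k₁ + 3 ≤ n → 0 < σ i ∧ σ i < h) ∧
    ∀ i, n < i + k₁ + 3 → i + 2 ≤ n → σ i = h

/-! ## The end -/

/-- FNU (medium-strong; uses RLA RUN RPT XOU ENB ENT BCI PLN PTP EBL EBH NXU ARL ARH PSI SIU SIG MAT and
`FplStmt` `DrwStmt` `GnzStmt`; compare FNL, `Helper11_SGL/FNL.lean`).  The theorem.
PROOF.  `t`, a vertex of level `0` and one of level `h ≥ 1` are different, so `n ≥ 3`.  RLA: `b, c, E, F`
on `Fin n ⊕ Fin 3`.  `N = (Inn ..).ncard = n - 3`.  RUN: `v, C₁, C, S`; RPT: `Pat`.  `j₀ + 1`, `k₁ + 1` = the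
sizes of the levels `0`, `h`; SIG: `σ`; SIU; `m₁ = N - k₁` (`j₀ ≤ m₁`, because `j₀ + k₁ + 3 ≤ n`).
ARL, ARH: `D₀, D₁`.  ENB for the state `j₀` (`(Kl v j₀).ncard = j₀`, `Run.inj`) and `D₀`: `x₀, y₀, π₀`;
ENT for the state `m₁` (`(Inn \ Kl v m₁).ncard = N - m₁ = k₁`) and `D₁`: `x₁, y₁, π₁`.  BCI and XOU with
start `x₀` (injective on `K ∪ {c}`: `xd`, `xc`, `psu`): `x`.  PLN: `s, x', y', τ`, `Plan`.  `R = RR (inl a) E`,
`ρ u` = number of the `w ∈ R` with `x' w < x' u` (`ρ p < ρ q` iff `x' p < x' q` on `R`, injective by `xd`).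
PTP: `B, W`, `f = cu ..`, `GdT`, `GdL`.  EBL with `(x', y')`... : `EndB` only involves `x₀, y₀` on
`K ∪ {c}`, where they are equal to `x', y'`; in the same slice `o (f p) (f q) (f r) = o (pv ..)` (`B ^ s`
cancels; a shift `τ` of `x` does not change `o` and the order): `ArcL`, `ArcH`.  MAT for
`A = {w // w ≠ t}` and `R` (sizes of the slices: `k ↦ s (v k) = σ k`, `v` is a bijection from
`{0, ..., N + 1}` onto `R`): `ψ`.  PSI with `g i = ps c a j₀ π₀ i`, `g' i = ps a b k₁ π₁ i`: `hA`, `hA'` of NXU.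
The condition on `c`: `c` has the smallest `x'` in the slice `0`.  The end as in FNL. -/
def FnuStmt : Prop := ∀ (n : ℕ) (G₁ G₂ T : SimpleGraph (Fin n)) (a : Fin n), MaxPl T → Hit T a →
  G₁ ≤ T → ∀ (t : Fin n) (h : ℕ) (lev pos : Fin n → ℕ), 1 ≤ h → LvU G₂ t h lev pos →
  ∃ P : Finset (ℝ × ℝ), P.card = n ∧ (∃ f, Draw G₁ f ∧ ∀ u, f u ∈ P) ∧
    ∃ f, Draw G₂ f ∧ ∀ u, f u ∈ P

end Pool.Agent.SGL
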